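import Pool.Agent.H868.RC.Factor
import Pool.Graph.R_pool_sql_team_seeded_1e53cb71.Helper15K9.IC.Clo
import Pool.Graph.R_seed8.TH130.CI.Bc

/-!
The construction of the data from a complete intersection.
-/

namespace Pool.Agent.H868.RC

set_option maxHeartbeats 400000

open MvPolynomial
open Pool.Agent.Helper15K9.IC
open Pool.Agent.W695.SLP (lf Good fun0 fun0_apply Ann mem_Ann act act_hom HasSLP slp_of_good descent
  ex ex_self exists_lf exists_good Kills nondeg lf_hom)
open Pool.Agent.TH61.SL (exI pair_of_mem mem_of_pair mem_of_large)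
open Pool.Agent.W515.SLP (AnnP Deg)
open H503R3.QCI (NZD Reg)
open TH130CI (gor ci_gor' sreg_of_reg SRegOn)

section

variable {K : Type*} [Field K]

/-- the three conditions on the pairs and triples -/
structure CI3 (f g h : R K) : Prop where
  fg : NZD (Ideal.span {f}) g
  fh : NZD (Ideal.span {f}) h
  fgh : NZD (Ideal.span {f, g}) h
  fhg : NZD (Ideal.span {f, h}) g

lemma CI3.swap {f g h : R K} (H : CI3 f g h) : CI3 f h g := ⟨H.fh, H.fg, H.fhg, H.fgh⟩

lemma ci3_of_reg {f g h : R K} {a b c : ℕ} (hf : f.IsHomogeneous a) (hg : g.IsHomogeneous b)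
    (hh : h.IsHomogeneous c) (ha : 1 ≤ a) (hb : 1 ≤ b) (hc : 1 ≤ c)
    (hreg : Reg ![f, g, h]) : CI3 f g h := by
  have hs := sreg_of_reg (f := ![f, g, h]) (d := ![a, b, c]) (by
    intro i
    fin_cases i
    · exact hf
    · exact hg
    · exact hh) (by
    intro i
    fin_cases i
    · exact ha
    · exact hb
    · exact hc) hreg
  refine ⟨?_, ?_, ?_, ?_⟩
  · have h1 := hs {0} (Finset.subset_univ _) 1 (Finset.mem_univ _) (by decide)
    have h2 : (![f, g, h] '' (({0} : Finset (Fin 3)) : Set (Fin 3))) = {f} := by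
      rw [Finset.coe_singleton, Set.image_singleton]; rfl
    rwa [h2] at h1
  · have h1 := hs {0} (Finset.subset_univ _) 2 (Finset.mem_univ _) (by decide)
    have h2 : (![f, g, h] '' (({0} : Finset (Fin 3)) : Set (Fin 3))) = {f} := by
      rw [Finset.coe_singleton, Set.image_singleton]; rfl
    rwa [h2] at h1
  · have h1 := hs {0, 1} (Finset.subset_univ _) 2 (Finset.mem_univ _) (by decide)
    have h2 : (![f, g, h] '' (({0, 1} : Finset (Fin 3)) : Set (Fin 3))) = {f, g} := by
      rw [Finset.coe_insert, Finset.coe_singleton, Set.image_pair]; rfl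
    rwa [h2] at h1
  · have h1 := hs {0, 2} (Finset.subset_univ _) 1 (Finset.mem_univ _) (by decide)
    have h2 : (![f, g, h] '' (({0, 2} : Finset (Fin 3)) : Set (Fin 3))) = {f, h} := by
      rw [Finset.coe_insert, Finset.coe_singleton, Set.image_pair]; rfl
    rwa [h2] at h1

lemma range_three (f g h : R K) : Set.range ![f, g, h] = {f, g, h} := by
  ext x
  constructor
  · rintro ⟨i, rfl⟩
    fin_cases i <;> simp
  · rintro (rfl | rfl | rfl)
    · exact ⟨0, rfl⟩
    · exact ⟨1, rfl⟩
    · exact ⟨2, rfl⟩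

/-- a functional of degree `D` is given by a form -/
lemma exists_form [CharZero K] {φ : R K →ₗ[K] K} {D : ℕ} (hφ : Deg φ D) :
    ∃ F : R K, F.IsHomogeneous D ∧ ∀ g, fun0 F g = φ g := by
  classical
  let T : Pool.Agent.W695.SLP.H K D →ₗ[K] Module.Dual K (Pool.Agent.W695.SLP.H K D) :=
    LinearMap.mk₂ K (fun F g => coeff 0 (act (g : R K) (F : R K)))
      (fun F F' g => by simp only [Submodule.coe_add, map_add, coeff_add])
      (fun s F g => by simp only [Submodule.coe_smul, map_smul, coeff_smul])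
      (fun F g g' => by simp only [Submodule.coe_add, map_add, LinearMap.add_apply, coeff_add])
      (fun s F g => by simp only [Submodule.coe_smul, map_smul, LinearMap.smul_apply, coeff_smul])
  have hTapp : ∀ F g, T F g = coeff 0 (act (g : R K) (F : R K)) := fun F g => rfl
  have hinj : Function.Injective T := by
    rw [injective_iff_map_eq_zero]
    intro F hF
    by_contra hne
    obtain ⟨w, hw, hw2⟩ := nondeg D F.2 (fun h => hne (Subtype.ext h))
    apply hw2
    have h1 := LinearMap.congr_fun hF ⟨w, hw⟩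
    rw [hTapp] at h1
    exact h1
  have hsurj : Function.Surjective T :=
    (LinearMap.injective_iff_surjective_of_finrank_eq_finrank (Subspace.dual_finrank_eq).symm).1 hinj
  obtain ⟨F, hF⟩ := hsurj (φ.comp (Pool.Agent.W695.SLP.H K D).subtype)
  refine ⟨F, F.2, fun g => ?_⟩
  have h1 : ∀ e, fun0 (F : R K) (homogeneousComponent e g) = φ (homogeneousComponent e g) := by
    intro e
    have hg := homogeneousComponent_isHomogeneous e g
    by_cases he : e = D
    · subst he
      have h2 := LinearMap.congr_fun hF ⟨_, hg⟩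
      rw [hTapp] at h2
      exact h2
    · rw [hφ e he _ hg, fun0_apply]
      rcases Nat.lt_or_ge D e with h | h
      · rw [(act_hom F.2 hg).2 h, coeff_zero]
      · apply (act_hom F.2 hg).1.coeff_eq_zero
        simp
        omega
  rw [← sum_homogeneousComponent g, map_sum, map_sum]
  exact Finset.sum_congr rfl fun e _ => h1 e

end

section

universe w

variable {L : Type w} [Field L] [CharZero L] [IsAlgClosed L]

/-- a good linear form exists in the middle degrees over the closure -/
theorem exists_good_of_dt {K : Type w} [Field K] [CharZero K] [Algebra K L] {b c : ℕ}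
    {F : MvPolynomial (Fin 3) K} (hF : F.IsHomogeneous (b + c)) {f g h : R L}
    (hf : f.IsHomogeneous 3) (hf0 : f ≠ 0) (hg : g.IsHomogeneous b) (hh : h.IsHomogeneous c)
    (H : CI3 f g h) (hJ : exI L (Ann F) = Ideal.span {f, g, h})
    (hcore : ∀ D : Dt L, D.f = f → False) {i : ℕ} (hi : 1 ≤ i) (hib : i + 1 < b)
    (hic : i + 1 < c) : ∃ p : Fin 3 → L, Good (ex (fun0 F) L) (b + c) i (lf p) := by
  classical
  have hinf : Infinite L := inferInstance
  obtain ⟨φ, hφ⟩ : ∃ φ, φ = ex (fun0 F) L := ⟨_, rfl⟩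
  rw [← hφ]
  by_contra hcon
  push Not at hcon
  have hdegφ : Deg φ (b + c) := by rw [hφ]; exact deg_ex hF
  have hmem1 : ∀ s : R L, s ∈ Ideal.span {f, g, h} → ∀ v, φ (s * v) = 0 := by
    intro s hs v
    rw [hφ]
    exact pair_of_mem (by rw [hJ]; exact hs) v
  have hmem2 : ∀ (s : R L) (j : ℕ), s.IsHomogeneous j →
      (∀ v : R L, v.IsHomogeneous (b + c - j) → φ (s * v) = 0) → s ∈ Ideal.span {f, g, h} := by
    intro s j hs hv
    rw [← hJ]
    apply mem_of_pair hF hs
    rw [← hφ]
    exact hv
  obtain ⟨N, hN⟩ : ∃ N, N = b + c - 2 * i := ⟨_, rfl⟩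
  obtain ⟨d, u, hd, hut, hux, hker, ⟨t0, v0, hv0, hne0⟩, hmin⟩ :=
    exists_kernel L φ (b + c) i N (by omega) (by omega) hcon
  have hf_mem : f ∈ Ideal.span {f, g, h} := Ideal.subset_span (by simp)
  have hP : ∀ m, coeff m (u * gl L ^ N) ∈ Ideal.span {f, g, h} := by
    intro m
    have h2 : (coeff m (u * gl L ^ N)).IsHomogeneous (b + c - i) := by
      have h3 : BH u i := hux
      have := (h3.mul (BH_gl.pow N)) m
      rwa [one_mul, show i + N = b + c - i by omega] at this
    apply hmem2 _ _ h2
    intro v hv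
    rw [show b + c - (b + c - i) = i by omega] at hv
    exact hker m v hv
  have hPt : ∀ t, evt t u * lf t ^ N ∈ Ideal.span {f, g, h} := by
    intro t
    have h1 : evt t (u * gl L ^ N) = evt t u * lf t ^ N := by
      rw [map_mul, map_pow, evt_gl]
    rw [← h1, evt, eval_eq]
    exact Ideal.sum_mem _ fun m _ => Ideal.mul_mem_right _ _ (hP m)
  refine hcore
    { f := f, g := g, h := h, b := b, c := c, i := i, N := N, d := d, M := b + c + 1, u := u,
      hf := hf, hf0 := hf0, hg := hg, hh := hh, hreg := ?_, hcg := ?_, hch := ?_, hM := ?_,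
      hN := by omega, hdeg := by omega, hi := hi, hib := by omega, hic := by omega, hib2 := hib,
      hic2 := hic, hd := hd, hut := hut, hux := hux, hP := hP, hmin := ?_, hfac := ?_,
      hsoc := ?_ } rfl
  · intro X Y hXY
    have h1 : h * X ∈ Ideal.span {f, g} := by
      obtain ⟨a, ha⟩ := hXY
      rw [Ideal.mem_span_pair]
      exact ⟨a, -Y, by linear_combination -ha⟩
    have h2 := H.fgh X h1
    rw [Ideal.mem_span_pair] at h2
    obtain ⟨a, κ, h2⟩ := h2
    refine ⟨-κ, ?_, ⟨a, by linear_combination -h2⟩⟩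
    have h3 : f ∣ g * (Y - h * (-κ)) := by
      obtain ⟨b, hb⟩ := hXY
      exact ⟨b - h * a, by linear_combination hb + h * h2⟩
    rw [← Ideal.mem_span_singleton] at h3 ⊢
    exact H.fg _ h3
  · intro X hX
    rw [← Ideal.mem_span_singleton] at hX ⊢
    exact H.fg _ hX
  · intro X hX
    rw [← Ideal.mem_span_singleton] at hX ⊢
    exact H.fh _ hX
  · intro j
    have h1 := (isHomogeneous_X L j).pow (b + c + 1)
    rw [one_mul] at h1
    rw [← hJ]
    exact mem_of_large hF h1 (by omega)
  · -- minimality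
    intro c' hc'
    obtain ⟨t, ht, v, _, hne⟩ := hmin c' hc'
    refine ⟨t, ht, fun h1 => hne ?_⟩
    exact hmem1 _ (Ideal.mem_of_dvd _ h1 hf_mem) v
  · -- no factor
    intro p hp hpf hpu
    obtain ⟨r, hr⟩ := hpf
    have hr0 : r ≠ 0 := by
      rintro rfl
      rw [mul_zero] at hr
      exact hf0 hr
    have hph : p.IsHomogeneous p.totalDegree :=
      Pool.Agent.Chud.homog_of_dvd hf hf0 (by rw [hr]; exact Dvd.intro _ rfl)
    have hrh : r.IsHomogeneous r.totalDegree :=
      Pool.Agent.Chud.homog_of_dvd hf hf0 (by rw [hr]; exact Dvd.intro_left _ rfl)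
    have hdeg3 := hf.totalDegree hf0
    rw [hr, totalDegree_mul_of_isDomain hp.ne_zero hr0] at hdeg3
    have hdp := totalDegree_pos hp
    obtain ⟨δ, hδ⟩ : ∃ δ, δ = p.totalDegree := ⟨_, rfl⟩
    rw [← hδ] at hph hdeg3 hdp
    obtain ⟨u', hu'⟩ := hpu
    have hut' : ∀ t, evt t u = p * evt t u' := by
      intro t
      rw [hu', map_mul, evt_C]
    -- `δ ≤ i`
    have hut0 : evt t0 u ≠ 0 := by
      intro h
      apply hne0
      rw [h, zero_mul, map_zero]
    have huh : ∀ t, (evt t u).IsHomogeneous i := fun t => XH.evt hux t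
    have hu'h : ∀ t, (evt t u').IsHomogeneous (i - δ) := by
      intro t
      by_cases h0 : evt t u' = 0
      · rw [h0]; exact isHomogeneous_zero _ _ _
      have h1 : evt t u ≠ 0 := by
        rw [hut']
        exact mul_ne_zero hp.ne_zero h0
      have h2 : (evt t u').IsHomogeneous (evt t u').totalDegree :=
        Pool.Agent.Chud.homog_of_dvd (huh t) h1 (by rw [hut']; exact Dvd.intro_left _ rfl)
      have h3 := (huh t).totalDegree h1
      rw [hut', totalDegree_mul_of_isDomain hp.ne_zero h0] at h3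
      rwa [show i - δ = (evt t u').totalDegree by omega]
    have hδi : δ ≤ i := by
      have h3 := (huh t0).totalDegree hut0
      have h0 : evt t0 u' ≠ 0 := by
        intro h
        apply hut0
        rw [hut', h, mul_zero]
      rw [hut', totalDegree_mul_of_isDomain hp.ne_zero h0] at h3
      omega
    -- the functional of `f / p`
    obtain ⟨φp, hφp⟩ : ∃ φp : R L →ₗ[L] L, φp = φ ∘ₗ LinearMap.mulLeft L p := ⟨_, rfl⟩
    have hφpa : ∀ x, φp x = φ (p * x) := by
      intro x
      rw [hφp]; rfl
    obtain ⟨q, hq⟩ : ∃ q : R L, q = r * X 0 ^ (δ - 1) := ⟨_, rfl⟩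
    have hq2 : q.IsHomogeneous 2 := by
      have h1 := hrh.mul ((isHomogeneous_X L (0 : Fin 3)).pow (δ - 1))
      rwa [show r.totalDegree + 1 * (δ - 1) = 2 by omega, ← hq] at h1
    have hq0 : q ≠ 0 := by
      rw [hq]
      exact mul_ne_zero hr0 (pow_ne_zero _ (X_ne_zero _))
    have hkills : Kills φp (b + c - δ) q := by
      intro j _ x _
      rw [hφpa, hq]
      have e : p * (r * X 0 ^ (δ - 1) * x) = f * (X 0 ^ (δ - 1) * x) := by rw [hr]; ring
      rw [e]
      exact hmem1 f hf_mem _
    obtain ⟨ℓ, hℓ, hgood⟩ := exists_good hq2 hq0 hkills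
    obtain ⟨p1, rfl⟩ := exists_lf hℓ
    have hg1 := hgood (i - δ) (by omega)
    obtain ⟨P, hP0, hPP⟩ := descent (K := L) (L := L) (φ := φp) (d := b + c - δ) (i := i - δ)
      (by omega) (pL := p1) (by
        intro x hx hx2 w hw
        rw [ex_self]
        refine hg1 x hx ?_ w hw
        intro v hv
        rw [← ex_self φp]
        exact hx2 v hv)
    -- the polynomial `φ (u (t) v0)`
    obtain ⟨Q, hQ⟩ : ∃ Q : R L, Q = Ph (φ ∘ₗ LinearMap.mulRight L v0) u := ⟨_, rfl⟩
    have hQe : ∀ t, eval t Q = φ (evt t u * v0) := by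
      intro t
      rw [hQ, eval_Ph]; rfl
    have hQ0 : Q ≠ 0 := by
      rintro h
      apply hne0
      rw [← hQe, h, map_zero]
    obtain ⟨t, ht⟩ : ∃ t, eval t (P * Q) ≠ 0 := by
      by_contra hall
      push Not at hall
      apply mul_ne_zero hP0 hQ0
      apply MvPolynomial.funext
      intro t
      rw [hall t, map_zero]
    rw [map_mul, mul_ne_zero_iff] at ht
    apply ht.2
    rw [hQe]
    have hgt := hPP t ht.1
    have h5 := hgt (evt t u') (hu'h t) (by
      intro v hv
      rw [hφpa, show b + c - δ - 2 * (i - δ) = N + δ by omega]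
      have e : p * (lf t ^ (N + δ) * evt t u' * v)
          = (evt t u * lf t ^ N) * (lf t ^ δ * v) := by
        rw [hut', pow_add]; ring
      rw [e]
      exact hmem1 _ (hPt t) _)
    have h6 := h5 v0 (by
      rwa [show b + c - δ - (i - δ) = b + c - i by omega])
    rw [hφpa] at h6
    rw [hut', mul_assoc]
    exact h6
  · -- the socle
    intro s hs hsm
    apply hmem2 s (i + 1) hs
    intro v hv
    refine kill_of_gl φ N (i - 1) s ?_ v (by rwa [show i - 1 + N = b + c - (i + 1) by omega])
    intro w _ m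
    rw [← mul_assoc]
    exact hmem1 _ (hsm m) w

end

end Pool.Agent.H868.RC
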