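import Pool.Agent.H868.RC.Build

/-!
The strong Lefschetz property of the complete intersections `(f, g, h)` with a square-free cubic `f`.
-/

namespace Pool.Agent.H868.RC

set_option maxHeartbeats 400000

open MvPolynomial
open Pool.Agent.Helper15K9.IC (R)
open Pool.Agent.W695.SLP (lf Good fun0 fun0_apply Ann mem_Ann act act_hom HasSLP slp_of_good descent
  ex ex_self exists_lf nondeg lf_hom)
open Pool.Agent.TH61.SL (exI ann_dual main_K)
open Pool.Agent.W515.SLP (AnnP Deg)
open H503R3.QCI (NZD Reg)
open TH130CI (gor mem_gor ci_gor' reg_map)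

universe w

variable {K : Type w} [Field K]

lemma reg_of_ci3 {f g h : R K} (hf0 : f ≠ 0) (H : CI3 f g h) : Reg ![f, g, h] := by
  intro i
  fin_cases i
  · change NZD (Ideal.span (![f, g, h] '' {j | j < 0})) f
    have h1 : ({j : Fin 3 | j < 0} : Set (Fin 3)) = ∅ := by
      ext j
      simp
    rw [h1, Set.image_empty, Ideal.span_empty]
    intro x hx
    rw [Ideal.mem_bot] at hx ⊢
    exact (mul_eq_zero.1 hx).resolve_left hf0
  · change NZD (Ideal.span (![f, g, h] '' {j | j < 1})) g
    have h1 : ({j : Fin 3 | j < 1} : Set (Fin 3)) = {0} := by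
      ext j
      fin_cases j <;> simp
    rw [h1, Set.image_singleton]
    exact H.fg
  · change NZD (Ideal.span (![f, g, h] '' {j | j < 2})) h
    have h1 : ({j : Fin 3 | j < 2} : Set (Fin 3)) = {0, 1} := by
      ext j
      fin_cases j <;> simp
    rw [h1, Set.image_pair]
    exact H.fgh

lemma const_of_mem {f g h : R K} {a b c : ℕ} (hf : f.IsHomogeneous a) (hg : g.IsHomogeneous b)
    (hh : h.IsHomogeneous c) (ha : 1 ≤ a) (hb : 1 ≤ b) (hc : 1 ≤ c) {x : R K}
    (hx : x ∈ Ideal.span {f, g, h}) : constantCoeff x = 0 := by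
  have h1 : ∀ {p : R K} {n : ℕ}, p.IsHomogeneous n → 1 ≤ n → constantCoeff p = 0 := by
    intro p n hp hn
    rw [constantCoeff_eq]
    apply hp.coeff_eq_zero
    simp
    omega
  have h2 : Ideal.span {f, g, h} ≤ RingHom.ker (constantCoeff : R K →+* K) := by
    rw [Ideal.span_le]
    rintro y (rfl | rfl | rfl)
    · exact h1 hf ha
    · exact h1 hg hb
    · exact h1 hh hc
  exact h2 hx

lemma ne_zero_of_nzd {f g : R K} {a : ℕ} (hf : f.IsHomogeneous a) (ha : 1 ≤ a)
    (H : NZD (Ideal.span {f}) g) : g ≠ 0 := by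
  rintro rfl
  have h1 := H 1 (by rw [zero_mul]; exact Ideal.zero_mem _)
  rw [Ideal.mem_span_singleton] at h1
  exact not_unit_of_hom hf ha (isUnit_of_dvd_one h1)

theorem main_le [CharZero K] {b c : ℕ} {f g h : R K} (hf : f.IsHomogeneous 3)
    (hg : g.IsHomogeneous b) (hh : h.IsHomogeneous c) (hb : 1 ≤ b) (hbc : b ≤ c)
    (hsq : Squarefree (map (algebraMap K (AlgebraicClosure K)) f)) (H : CI3 f g h) :
    HasSLP (Ideal.span {f, g, h}) := by
  classical
  have hc : 1 ≤ c := hb.trans hbc
  have hinf : Infinite K := inferInstance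
  have hchar : CharZero (AlgebraicClosure K) := charZero_of_injective_algebraMap
    (algebraMap K (AlgebraicClosure K)).injective
  have hf0 : f ≠ 0 := by
    rintro rfl
    rw [map_zero] at hsq
    exact hsq.ne_zero rfl
  have hreg := reg_of_ci3 hf0 H
  obtain ⟨φ, hφ, hI⟩ := ci_gor' (f := ![f, g, h]) (d := ![3, b, c]) (by
    intro i
    fin_cases i
    · exact hf
    · exact hg
    · exact hh) (by
    intro i
    fin_cases i
    · exact (by norm_num : 1 ≤ 3)
    · exact hb
    · exact hc) hreg
  have hsum : ∑ i, ((![3, b, c] : Fin 3 → ℕ) i - 1) = b + c := by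
    rw [Fin.sum_univ_three]
    simp only [Matrix.cons_val_zero, Matrix.cons_val_one, Matrix.cons_val]
    omega
  rw [hsum] at hφ
  rw [range_three] at hI
  obtain ⟨F, hF, hFφ⟩ := exists_form hφ
  have hAnn : Ann F = Ideal.span {f, g, h} := by
    apply le_antisymm
    · intro x hx
      rw [hI, mem_gor]
      intro v
      rw [← hFφ, fun0_apply, mul_comm, map_mul, Module.End.mul_apply, mem_Ann.1 hx, map_zero,
        coeff_zero]
    · have key : ∀ {p : R K} {n : ℕ}, p.IsHomogeneous n → p ∈ gor φ → p ∈ Ann F := by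
        intro p n hp hpg
        rcases Nat.lt_or_ge (b + c) n with h | h
        · rw [mem_Ann]
          exact (act_hom hF hp).2 h
        · rw [ann_dual hF n h p hp]
          intro v _
          rw [hFφ]
          exact hpg v
      have hsub : ∀ p ∈ ({f, g, h} : Set (R K)), p ∈ gor φ := by
        intro p hp
        rw [← hI]
        exact Ideal.subset_span hp
      rw [Ideal.span_le]
      rintro y (rfl | rfl | rfl)
      · exact key hf (hsub _ (by simp))
      · exact key hg (hsub _ (by simp))
      · exact key hh (hsub _ (by simp))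
  have hF0 : F ≠ 0 := by
    intro h0
    have h1 : (1 : R K) ∈ Ann F := by
      rw [mem_Ann, h0, map_zero]
    rw [hAnn] at h1
    have h2 := const_of_mem hf hg hh (by norm_num) hb hc h1
    rw [map_one] at h2
    exact one_ne_zero h2
  have hfF : f ∈ Ann F := by rw [hAnn]; exact Ideal.subset_span (by simp)
  have hgF : g ∈ Ann F := by rw [hAnn]; exact Ideal.subset_span (by simp)
  rw [← hAnn]
  by_cases hb2 : b ≤ 2
  · -- a quadric
    have hq : (g * X 0 ^ (2 - b)).IsHomogeneous 2 := by
      have h1 := hg.mul ((isHomogeneous_X K (0 : Fin 3)).pow (2 - b))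
      rwa [show b + 1 * (2 - b) = 2 by omega] at h1
    refine Pool.Agent.W695.SLP.main hF hq
      (mul_ne_zero (ne_zero_of_nzd hf (by norm_num) H.fg) (pow_ne_zero _ (X_ne_zero _))) ?_
    exact mem_Ann.1 (Ideal.mul_mem_right _ _ hgF)
  by_cases hirr : Irreducible (map (algebraMap K (AlgebraicClosure K)) f)
  · exact Pool.Agent.Helper15K9.IC.slp_of_core (fun L _ _ _ D =>
      Pool.Agent.Helper15K9.IC.core L D) K hF hf hirr (mem_Ann.1 hfF)
  push Not at hb2
  obtain ⟨-, ℓ, hℓ, hG⟩ := main_K (a := 3) hF hF0 hf hg hh (by norm_num) (by omega) (by omega)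
    (by omega) hAnn H.fgh
  obtain ⟨p1, rfl⟩ := exists_lf hℓ
  have hL : ∀ i, 2 * i ≤ b + c → i ≠ 0 → i + 1 < b →
      ∃ p : Fin 3 → AlgebraicClosure K, Good (ex (fun0 F) (AlgebraicClosure K)) (b + c) i (lf p) := by
    intro i _ hi0 hib
    have hreg' := reg_map (L := AlgebraicClosure K) hreg
    have e1 : (fun i => map (algebraMap K (AlgebraicClosure K)) (![f, g, h] i))
        = ![map (algebraMap K (AlgebraicClosure K)) f, map (algebraMap K (AlgebraicClosure K)) g,
          map (algebraMap K (AlgebraicClosure K)) h] := by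
      funext i
      fin_cases i <;> rfl
    rw [e1] at hreg'
    have hfL := hf.map (algebraMap K (AlgebraicClosure K))
    have hgL := hg.map (algebraMap K (AlgebraicClosure K))
    have hhL := hh.map (algebraMap K (AlgebraicClosure K))
    refine exists_good_of_dt (L := AlgebraicClosure K) hF hfL hsq.ne_zero hgL hhL
      (ci3_of_reg hfL hgL hhL (by norm_num) hb hc hreg') ?_ ?_ (by omega) hib (by omega)
    · rw [hAnn, exI, Ideal.map_span, Set.image_insert_eq, Set.image_insert_eq, Set.image_singleton]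
    · intro D hD
      exact core (AlgebraicClosure K) D (by rw [hD]; exact hsq) (by rw [hD]; exact hirr)
  have hP : ∀ i, ∃ P : R K, P ≠ 0 ∧
      (2 * i ≤ b + c → ∀ p : Fin 3 → K, eval p P ≠ 0 → Good (fun0 F) (b + c) i (lf p)) := by
    intro i
    by_cases h2 : 2 * i ≤ b + c
    · by_cases hi : i ≠ 0 ∧ i + 1 < b
      · obtain ⟨pL, hGL⟩ := hL i h2 hi.1 hi.2
        obtain ⟨P, hP0, hP⟩ := descent h2 hGL
        exact ⟨P, hP0, fun _ => hP⟩
      · have h3 := hG i h2 (by omega)
        obtain ⟨P, hP0, hP⟩ := descent (K := K) (L := K) (φ := fun0 F) (d := b + c) (i := i) h2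
          (pL := p1) (by
            intro x hx hx2 v hv
            rw [ex_self]
            refine h3 x hx ?_ v hv
            intro v hv
            rw [← ex_self (fun0 F)]
            exact hx2 v hv)
        exact ⟨P, hP0, fun _ => hP⟩
    · exact ⟨1, one_ne_zero, fun h => absurd h h2⟩
  choose P hP0 hP using hP
  have hprod : ∏ i ∈ Finset.range (b + c + 1), P i ≠ 0 :=
    Finset.prod_ne_zero_iff.mpr (fun i _ => hP0 i)
  have hex : ∃ p : Fin 3 → K, eval p (∏ i ∈ Finset.range (b + c + 1), P i) ≠ 0 := by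
    by_contra h
    push Not at h
    apply hprod
    apply MvPolynomial.funext
    intro p
    rw [h p, map_zero]
  obtain ⟨p, hp⟩ := hex
  rw [map_prod] at hp
  refine slp_of_good (φ := fun0 F) (d := b + c) (ann_dual hF) ?_
    (Pool.Agent.W695.SLP.lf_hom p) fun i hi => ?_
  · intro i hi g hg
    rw [mem_Ann]
    exact (act_hom hF hg).2 hi
  · exact hP i hi p (Finset.prod_ne_zero_iff.mp hp i (Finset.mem_range.mpr (by omega)))

theorem main [CharZero K] {b c : ℕ} {f g h : R K} (hf : f.IsHomogeneous 3)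
    (hg : g.IsHomogeneous b) (hh : h.IsHomogeneous c) (hb : 1 ≤ b) (hc : 1 ≤ c)
    (hsq : Squarefree (map (algebraMap K (AlgebraicClosure K)) f)) (hreg : Reg ![f, g, h]) :
    HasSLP (Ideal.span {f, g, h}) := by
  have H := ci3_of_reg hf hg hh (by norm_num) hb hc hreg
  rcases Nat.le_total b c with h1 | h1
  · exact main_le hf hg hh hb h1 hsq H
  · have h2 := main_le hf hh hg hc h1 hsq H.swap
    have e : ({f, h, g} : Set (R K)) = {f, g, h} := by
      rw [Set.pair_comm]
    rwa [e] at h2

end Pool.Agent.H868.RC
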