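import Pool.Agent.H868.RC.Three
import Pool.Agent.H868.RC.Conic

/-!
There is no generic kernel vector if the cubic is square-free and reducible.
-/

namespace Pool.Agent.H868.RC

open MvPolynomial
open Pool.Agent.Helper15K9.IC
open Pool.Agent.W695.SLP (lf Good exists_lf)

variable {K : Type*} [Field K]

lemma not_unit_of_hom {f : R K} {n : ℕ} (hf : f.IsHomogeneous n) (hn : 0 < n) : ¬ IsUnit f := by
  intro h
  rw [MvPolynomial.isUnit_iff_eq_C_of_isReduced] at h
  obtain ⟨r, hr, h⟩ := h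
  have h1 : f ≠ 0 := by
    rw [h]
    exact C_ne_zero.2 hr.ne_zero
  have h2 := hf.totalDegree h1
  rw [h, totalDegree_C] at h2
  omega

lemma unit_of_deg {f : R K} (h0 : f ≠ 0) (h : f.totalDegree = 0) : IsUnit f := by
  rw [totalDegree_eq_zero_iff_eq_C] at h
  rw [h]
  apply IsUnit.map
  rw [isUnit_iff_ne_zero]
  intro h1
  rw [h1, C_0] at h
  exact h0 h

/-- a form which is not irreducible is a product of forms of smaller degree -/
lemma exists_factor {f : R K} {n : ℕ} (hf : f.IsHomogeneous n) (hn : 0 < n) (hf0 : f ≠ 0)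
    (hirr : ¬ Irreducible f) : ∃ (a b : ℕ) (p q : R K), f = p * q ∧ p.IsHomogeneous a ∧
      q.IsHomogeneous b ∧ 0 < a ∧ 0 < b ∧ a + b = n := by
  rw [irreducible_iff] at hirr
  push Not at hirr
  obtain ⟨p, q, hpq, hp, hq⟩ := hirr (not_unit_of_hom hf hn)
  have hp0 : p ≠ 0 := by
    rintro rfl
    rw [zero_mul] at hpq
    exact hf0 hpq
  have hq0 : q ≠ 0 := by
    rintro rfl
    rw [mul_zero] at hpq
    exact hf0 hpq
  have hph : p.IsHomogeneous p.totalDegree :=
    Pool.Agent.Chud.homog_of_dvd hf hf0 (by rw [hpq]; exact Dvd.intro _ rfl)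
  have hqh : q.IsHomogeneous q.totalDegree :=
    Pool.Agent.Chud.homog_of_dvd hf hf0 (by rw [hpq]; exact Dvd.intro_left _ rfl)
  have hdeg := hf.totalDegree hf0
  rw [hpq, totalDegree_mul_of_isDomain hp0 hq0] at hdeg
  refine ⟨_, _, p, q, hpq, hph, hqh, ?_, ?_, hdeg⟩
  · rw [Nat.pos_iff_ne_zero]
    exact fun h => hp (unit_of_deg hp0 h)
  · rw [Nat.pos_iff_ne_zero]
    exact fun h => hq (unit_of_deg hq0 h)

/-- the square-free reducible cubics -/
lemma cubic_cases {f : R K} (hf : f.IsHomogeneous 3) (hf0 : f ≠ 0) (hsq : Squarefree f)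
    (hirr : ¬ Irreducible f) :
    (∃ (lam : Fin 3 → K) (q : R K), lam ≠ 0 ∧ f = lf lam * q ∧ Irreducible q ∧
      q.IsHomogeneous 2) ∨ ∃ lam : Fin 3 → (Fin 3 → K), Tri f lam := by
  obtain ⟨lam, q, hlam0, hfq, hq2⟩ : ∃ (lam : Fin 3 → K) (q : R K), lam ≠ 0 ∧ f = lf lam * q ∧
      q.IsHomogeneous 2 := by
    obtain ⟨a, b, p, q, hpq, hp, hq, ha, hb, hab⟩ := exists_factor hf (by norm_num) hf0 hirr
    have key : ∀ p q : R K, f = p * q → p.IsHomogeneous 1 → q.IsHomogeneous 2 →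
        ∃ (lam : Fin 3 → K) (q : R K), lam ≠ 0 ∧ f = lf lam * q ∧ q.IsHomogeneous 2 := by
      intro p q hpq hp hq
      obtain ⟨lam, rfl⟩ := exists_lf hp
      refine ⟨lam, q, ?_, hpq, hq⟩
      rintro rfl
      apply hf0
      rw [hpq, lf]
      simp
    rcases (by omega : (a = 1 ∧ b = 2) ∨ (a = 2 ∧ b = 1)) with ⟨rfl, rfl⟩ | ⟨rfl, rfl⟩
    · exact key p q hpq hp hq
    · exact key q p (by rw [hpq, mul_comm]) hq hp
  by_cases hqi : Irreducible q
  · exact Or.inl ⟨lam, q, hlam0, hfq, hqi, hq2⟩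
  right
  have hq0 : q ≠ 0 := by
    rintro rfl
    rw [mul_zero] at hfq
    exact hf0 hfq
  obtain ⟨a, b, p1, p2, hp12, hp1, hp2, ha, hb, hab⟩ := exists_factor hq2 (by norm_num) hq0 hqi
  obtain rfl : a = 1 := by omega
  obtain rfl : b = 1 := by omega
  obtain ⟨l1, rfl⟩ := exists_lf hp1
  obtain ⟨l2, rfl⟩ := exists_lf hp2
  have h10 : l1 ≠ 0 := by
    rintro rfl
    apply hq0
    rw [hp12, lf]
    simp
  have h20 : l2 ≠ 0 := by
    rintro rfl
    apply hq0
    rw [hp12, lf, lf]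
    simp
  have hf' : f = lf lam * lf l1 * lf l2 := by rw [hfq, hp12, mul_assoc]
  -- no two of the lines are proportional
  have hnp : ∀ (x y : Fin 3 → K) (r : R K), y ≠ 0 → f = lf x * lf y * r → ∀ s : K, x ≠ s • y := by
    intro x y r hy hr s hs
    have h1 : lf y * lf y ∣ f := ⟨C s * r, by rw [hr, hs, lf_smul]; ring⟩
    exact (irreducible_lf hy).not_isUnit (hsq _ h1)
  have h01 := hnp lam l1 (lf l2) h10 hf'
  have h10' := hnp l1 lam (lf l2) hlam0 (by rw [hf']; ring)
  have h02 := hnp lam l2 (lf l1) h20 (by rw [hf']; ring)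
  have h20' := hnp l2 lam (lf l1) hlam0 (by rw [hf']; ring)
  have h12 := hnp l1 l2 (lf lam) h20 (by rw [hf']; ring)
  have h21 := hnp l2 l1 (lf lam) h10 (by rw [hf']; ring)
  refine ⟨![lam, l1, l2], ?_, ?_, ?_, ?_⟩
  · intro j
    fin_cases j
    · exact hlam0
    · exact h10
    · exact h20
  · intro j
    fin_cases j
    · exact ⟨lf l1 * lf l2, by rw [hf', mul_assoc]; rfl⟩
    · exact ⟨lf lam * lf l2, by rw [hf']; change _ = lf l1 * _; ring⟩
    · exact ⟨lf lam * lf l1, by rw [hf']; change _ = lf l2 * _; ring⟩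
  · intro s hs
    have d0 : lf lam ∣ s := hs 0
    have d1 : lf l1 ∣ s := hs 1
    have d2 : lf l2 ∣ s := hs 2
    have nd : ∀ {x y : Fin 3 → K}, x ≠ 0 → (∀ s : K, y ≠ s • x) → ¬ lf x ∣ lf y := by
      intro x y hx h hd
      obtain ⟨s, hs⟩ := lf_dvd_lf hx hd
      exact h s hs
    obtain ⟨a, ha⟩ := d0
    rw [ha] at d1
    have d3 := ((irreducible_lf h10).prime.dvd_or_dvd d1).resolve_left (nd h10 h01)
    obtain ⟨b, hb⟩ := d3
    rw [ha, hb] at d2
    have d4 := ((irreducible_lf h20).prime.dvd_or_dvd d2).resolve_left (nd h20 h02)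
    have d5 := ((irreducible_lf h20).prime.dvd_or_dvd d4).resolve_left (nd h20 h12)
    obtain ⟨c, hc⟩ := d5
    exact ⟨c, by rw [ha, hb, hc, hf']; ring⟩
  · intro j k hjk
    fin_cases j <;> fin_cases k
    · exact absurd rfl hjk
    · exact h01
    · exact h02
    · exact h10'
    · exact absurd rfl hjk
    · exact h12
    · exact h20'
    · exact h21
    · exact absurd rfl hjk

/-- **There is no generic kernel vector.** -/
theorem core (L : Type*) [Field L] [CharZero L] [IsAlgClosed L] (D : Dt L) (hsq : Squarefree D.f)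
    (hirr : ¬ Irreducible D.f) : False := by
  rcases cubic_cases D.hf D.hf0 hsq hirr with ⟨lam, q, hlam, hf, hq, hq2⟩ | ⟨lam, T⟩
  · exact conic D hlam hf hq hq2
  · exact three D T

end Pool.Agent.H868.RC
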