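import Mathlib

/-!
A lemma on Wronskians of univariate polynomials over a domain.
-/

namespace Pool.Agent.H868.RC

open Polynomial

section lemT

/-- the first nontrivial coefficient of a Wronskian of `A`, `B` is divisible by every common factor
`φ` of the values `A (0)`, `B (0)` -/
theorem lemT {R' : Type*} [CommRing R'] [IsDomain R'] [CharZero R'] {A B G : Polynomial R'}
    {φ a b : R'} {m : ℕ} (hφ : φ ≠ 0) (hA : A.coeff 0 = φ * a) (hB : B.coeff 0 = φ * b)
    (hab : a ≠ 0 ∨ b ≠ 0)
    (hW : A * derivative B - B * derivative A = Polynomial.X ^ m * G) : φ ∣ G.coeff 0 := by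
  set E : Polynomial R' := Polynomial.C a * B - Polynomial.C b * A with hE
  have hE0 : E.coeff 0 = 0 := by
    rw [hE, coeff_sub, coeff_C_mul, coeff_C_mul, hA, hB]; ring
  obtain ⟨P, s, hs, hP0, hP⟩ : ∃ (P : Polynomial R') (s : R'), s ≠ 0 ∧ P.coeff 0 = φ * s ∧
      P * derivative E - derivative P * E = Polynomial.C s * (Polynomial.X ^ m * G) := by
    rcases hab with h | h
    · refine ⟨A, a, h, hA, ?_⟩
      rw [← hW, hE]
      simp only [derivative_sub, derivative_mul, derivative_C]
      ring
    · refine ⟨B, b, h, hB, ?_⟩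
      rw [← hW, hE]
      simp only [derivative_sub, derivative_mul, derivative_C]
      ring
  have hPne : P.coeff 0 ≠ 0 := by
    rw [hP0]
    exact mul_ne_zero hφ hs
  have key : ∀ k : ℕ, k ≤ m + 1 → Polynomial.X ^ k ∣ E := by
    intro k
    induction k with
    | zero => intro _; rw [pow_zero]; exact one_dvd _
    | succ k ih =>
      intro hk
      obtain ⟨Q, hQ⟩ := ih (by omega)
      rcases Nat.eq_zero_or_pos k with hk0 | hk0
      · rw [hk0, Nat.zero_add, pow_one, X_dvd_iff]
        exact hE0
      obtain ⟨j, rfl⟩ : ∃ j, k = j + 1 := ⟨k - 1, by omega⟩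
      have h1 : Polynomial.X ^ j * (((j + 1 : ℕ) : Polynomial R') * (P * Q)
          + Polynomial.X * (P * derivative Q - derivative P * Q))
          = Polynomial.X ^ j * (Polynomial.C s * (Polynomial.X ^ (m - j) * G)) := by
        have h2 : Polynomial.X ^ j * (Polynomial.C s * (Polynomial.X ^ (m - j) * G))
            = Polynomial.C s * (Polynomial.X ^ m * G) := by
          have : m = j + (m - j) := by omega
          conv_rhs => rw [this, pow_add]
          ring
        rw [h2, ← hP, hQ]
        simp only [derivative_mul, derivative_pow, derivative_X, Nat.add_sub_cancel]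
        push_cast
        simp only [map_add, map_one, map_natCast]
        ring
      have h2 := mul_left_cancel₀ (pow_ne_zero j Polynomial.X_ne_zero) h1
      have h3 := congrArg (fun p => Polynomial.coeff p 0) h2
      have h4 : m - j = (m - j - 1) + 1 := by omega
      simp only [coeff_add, mul_coeff_zero, coeff_C_zero, coeff_X_zero, zero_mul, add_zero] at h3
      rw [h4, pow_succ] at h3
      simp only [mul_coeff_zero, coeff_X_zero, mul_zero, zero_mul] at h3
      have h5 : Q.coeff 0 = 0 := by
        have h6 : ((j + 1 : ℕ) : Polynomial R').coeff 0 = ((j + 1 : ℕ) : R') := by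
          rw [← C_eq_natCast, coeff_C_zero]
        rw [h6] at h3
        rcases mul_eq_zero.1 h3 with h7 | h7
        · exact absurd h7 (by exact_mod_cast Nat.succ_ne_zero j)
        · exact (mul_eq_zero.1 h7).resolve_left hPne
      obtain ⟨Q', hQ'⟩ := X_dvd_iff.2 h5
      exact ⟨Q', by rw [hQ, hQ']; ring⟩
  obtain ⟨Q, hQ⟩ := key (m + 1) le_rfl
  have h1 : Polynomial.X ^ m * (((m + 1 : ℕ) : Polynomial R') * (P * Q)
      + Polynomial.X * (P * derivative Q - derivative P * Q))
      = Polynomial.X ^ m * (Polynomial.C s * G) := by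
    have h2 : Polynomial.X ^ m * (Polynomial.C s * G)
        = Polynomial.C s * (Polynomial.X ^ m * G) := by ring
    rw [h2, ← hP, hQ]
    simp only [derivative_mul, derivative_pow, derivative_X, Nat.add_sub_cancel]
    push_cast
    simp only [map_add, map_one, map_natCast]
    ring
  have h2 := mul_left_cancel₀ (pow_ne_zero m Polynomial.X_ne_zero) h1
  have h3 := congrArg (fun p => Polynomial.coeff p 0) h2
  simp only [coeff_add, mul_coeff_zero, coeff_C_zero, coeff_X_zero, zero_mul, add_zero] at h3
  rw [hP0] at h3
  refine ⟨((m + 1 : ℕ) : Polynomial R').coeff 0 * Q.coeff 0, ?_⟩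
  apply mul_left_cancel₀ hs
  rw [← h3]
  ring

end lemT

end Pool.Agent.H868.RC
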