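import Pool.Agent.H868.RC.Star2

/-!
On a line contained in the cubic the ratio `A : B` cannot be constant along a surface `c = 0` which is
not a pencil of lines through a point of the line.
-/

namespace Pool.Agent.H868.RC

open MvPolynomial
open Pool.Agent.Helper15K9.IC
open Pool.Agent.W695.SLP (lf Good)

variable {K : Type*} [Field K]

/-- zero or irreducible -/
def Pc (c : R K) : Prop := c = 0 ∨ Irreducible c

lemma Pc.dvd_or {c : R K} (h : Pc c) {P Q : R K} (hd : c ∣ P * Q) : c ∣ P ∨ c ∣ Q := by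
  rcases h with rfl | h
  · rw [zero_dvd_iff] at hd ⊢
    rw [zero_dvd_iff]
    exact mul_eq_zero.1 hd
  · exact h.prime.dvd_or_dvd hd

lemma Pc.not_one {c : R K} (h : Pc c) : ¬ c ∣ 1 := by
  rcases h with rfl | h
  · rw [zero_dvd_iff]
    exact one_ne_zero
  · exact fun h1 => h.not_isUnit (isUnit_of_dvd_one h1)

lemma Pc.not_mul {c : R K} (h : Pc c) {P Q : R K} (hP : ¬ c ∣ P) (hQ : ¬ c ∣ Q) : ¬ c ∣ P * Q := by
  intro h1
  rcases h.dvd_or h1 with h2 | h2
  · exact hP h2
  · exact hQ h2

lemma Pc.not_prod {c : R K} (h : Pc c) {ι : Type*} (s : Finset ι) (P : ι → R K)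
    (hP : ∀ i ∈ s, ¬ c ∣ P i) : ¬ c ∣ ∏ i ∈ s, P i := by
  classical
  induction s using Finset.induction_on with
  | empty => rw [Finset.prod_empty]; exact h.not_one
  | insert a s ha ih =>
    rw [Finset.prod_insert ha]
    exact h.not_mul (hP a (Finset.mem_insert_self _ _))
      (ih fun i hi => hP i (Finset.mem_insert_of_mem hi))

lemma Pc.exists_pt [IsAlgClosed K] {c : R K} (h : Pc c) {P : R K} (hP : ¬ c ∣ P) :
    ∃ t : Fin 3 → K, eval t c = 0 ∧ eval t P ≠ 0 := by
  rcases h with rfl | h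
  · by_contra hcon
    push Not at hcon
    apply hP
    rw [zero_dvd_iff]
    have : Infinite K := inferInstance
    apply MvPolynomial.funext
    intro t
    rw [hcon t (map_zero _), map_zero]
  · exact exists_zero_ne h hP

lemma ln_natDegree {P : R K} {n : ℕ} (hP : P.IsHomogeneous n) (a v : Fin 3 → K) :
    (ln a v P).natDegree ≤ n := by
  have h1 : P.totalDegree ≤ n := hP.totalDegree_le
  have h2 := MvPolynomial.aeval_natDegree_le (m := n) (n := 1) P h1
    (fun k => Polynomial.C (a k) + Polynomial.C (v k) * Polynomial.X) (by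
      intro i
      refine (Polynomial.natDegree_add_le _ _).trans ?_
      refine max_le ?_ ?_
      · rw [Polynomial.natDegree_C]; exact Nat.zero_le _
      · exact (Polynomial.natDegree_C_mul_le _ _).trans Polynomial.natDegree_X_le)
  rwa [mul_one] at h2

theorem lineA [CharZero K] [IsAlgClosed K] {U A B : RT K} {N i a b : ℕ} (hU : XH i U)
    (hA : XH a A) (hB : XH b B) (ha : a < N) (hb : b < N) {lam : Fin 3 → K} (hlam : lam ≠ 0)
    {g h : R K}
    (hrel : ∀ x : Fin 3 → K, ∑ j, lam j * x j = 0 →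
      evx x U * lf x ^ N + C (eval x h) * evx x A + C (eval x g) * evx x B = 0)
    {c : R K} (hc : Pc c) (hcl : ∀ x : Fin 3 → K, x ≠ 0 → ∑ j, lam j * x j = 0 → ¬ c ∣ lf x)
    (hprop : ∀ x : Fin 3 → K, x ≠ 0 → ∑ j, lam j * x j = 0 → ∀ t t', eval t c = 0 → eval t' c = 0 →
      eval t (evx x A) * eval t' (evx x B) = eval t' (evx x A) * eval t (evx x B))
    {x1 : Fin 3 → K} (hx1 : ∑ j, lam j * x1 j = 0) (hx10 : x1 ≠ 0) (hUc : ¬ c ∣ evx x1 U) :
    False := by
  classical
  have hinf : Infinite K := inferInstance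
  obtain ⟨t0, ht0c, ht0⟩ := hc.exists_pt hUc
  have hlU : ¬ lf lam ∣ evt t0 U := by
    rintro ⟨q, hq⟩
    apply ht0
    rw [eval_evx, hq, map_mul, eval_lf, hx1, zero_mul]
  obtain ⟨Z0, hZ00, hZ0⟩ := T1 K (lf lam) (evt t0 U) 1 i (Pool.Agent.W695.SLP.lf_hom lam)
    (XH.evt hU t0) (irreducible_lf hlam) hlU
  set Z := Z0.filter (fun z => ∑ j, lam j * z j = 0) with hZ
  obtain ⟨t, htc, ht⟩ := hc.exists_pt (P := evx x1 U * lf x1 * ∏ z ∈ Z, lf z)
    (hc.not_mul (hc.not_mul hUc (hcl x1 hx10 hx1)) (hc.not_prod _ _ fun z hz => by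
      rw [hZ, Finset.mem_filter] at hz
      exact hcl z (hZ00 z hz.1) hz.2))
  simp only [map_mul, mul_ne_zero_iff, map_prod, Finset.prod_ne_zero_iff] at ht
  obtain ⟨⟨htU, htl⟩, htZ⟩ := ht
  -- the point of the line on `ℓ_t`
  obtain ⟨x, hx0, hxl, hxt⟩ := exists_zero_on_plane (Pool.Agent.W695.SLP.lf_hom t)
    (by norm_num) hlam
  have hxU0 : eval t0 (evx x U) ≠ 0 := by
    intro h1
    rw [eval_evx] at h1
    obtain ⟨z, hz, s, hs⟩ := hZ0 x hx0 (by rw [eval_lf]; exact hxl) h1
    have hs0 : s ≠ 0 := by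
      rintro rfl
      rw [zero_smul] at hs
      exact hx0 hs
    have hzl : ∑ j, lam j * z j = 0 := by
      rw [hs] at hxl
      have : ∑ j, lam j * (s • z) j = s * ∑ j, lam j * z j := by
        rw [Finset.mul_sum]
        exact Finset.sum_congr rfl fun j _ => by simp only [Pi.smul_apply, smul_eq_mul]; ring
      rw [this] at hxl
      exact (mul_eq_zero.1 hxl).resolve_left hs0
    apply htZ z (by rw [hZ, Finset.mem_filter]; exact ⟨hz, hzl⟩)
    rw [lf_symm]
    rw [hs] at hxt
    have h2 := eval_smul_hom (Pool.Agent.W695.SLP.lf_hom t) s z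
    rw [h2, pow_one] at hxt
    exact (mul_eq_zero.1 hxt).resolve_left hs0
  have hxc : ¬ c ∣ evx x U := by
    rintro ⟨q, hq⟩
    apply hxU0
    rw [hq, map_mul, ht0c, zero_mul]
  obtain ⟨t', ht'c, ht'⟩ := hc.exists_pt (P := evx x U * lf x) (hc.not_mul hxc (hcl x hx0 hxl))
  rw [map_mul, mul_ne_zero_iff] at ht'
  obtain ⟨ht'U, ht'l⟩ := ht'
  -- restriction to the line
  obtain ⟨v1, hv1⟩ : ∃ v1 : Fin 3 → K, v1 = fun k => x1 k - x k := ⟨_, rfl⟩
  have hline0 : ∀ y : K, ∑ j, lam j * (x j + v1 j * y) = 0 := by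
    intro y
    have : ∑ j, lam j * (x j + v1 j * y)
        = (1 - y) * ∑ j, lam j * x j + y * ∑ j, lam j * x1 j := by
      rw [Finset.mul_sum, Finset.mul_sum, ← Finset.sum_add_distrib]
      exact Finset.sum_congr rfl fun j _ => by rw [hv1]; ring
    rw [this, hxl, hx1]; simp
  have hrel' : ∀ s : Fin 3 → K, ln x v1 (evt s U) * ln x v1 (lf s) ^ N
      + ln x v1 h * ln x v1 (evt s A) + ln x v1 g * ln x v1 (evt s B) = 0 := by
    intro s
    apply Polynomial.funext
    intro y
    have h1 := congrArg (eval s) (hrel _ (hline0 y))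
    simp only [map_add, map_mul, map_pow, eval_C, map_zero, eval_evx] at h1
    simp only [Polynomial.eval_add, Polynomial.eval_mul, Polynomial.eval_pow, ln_eval,
      Polynomial.eval_zero]
    rw [← lf_symm]
    exact h1
  have hne : ∀ y : K, (fun k => x k + v1 k * y) ≠ (0 : Fin 3 → K) := by
    -- otherwise `x1` would be a multiple of `x`
    have hind : ∀ s : K, x1 ≠ s • x := by
      intro s hs
      apply htl
      rw [lf_symm, hs, eval_smul_hom (Pool.Agent.W695.SLP.lf_hom t), hxt, mul_zero]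
    intro y hy
    by_cases hy0 : y = 0
    · apply hx0
      funext k
      have := congrFun hy k
      rw [hy0] at this
      simpa using this
    · apply hind (-((1 - y) / y))
      funext k
      have h1 := congrFun hy k
      rw [hv1] at h1
      simp only [Pi.zero_apply] at h1
      rw [Pi.smul_apply, smul_eq_mul]
      field_simp
      linear_combination h1
  have hprop' : ln x v1 (evt t A) * ln x v1 (evt t' B) = ln x v1 (evt t' A) * ln x v1 (evt t B) := by
    apply Polynomial.funext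
    intro y
    have h1 := hprop _ (hne y) (hline0 y) t t' htc ht'c
    simp only [eval_evx] at h1
    simp only [Polynomial.eval_mul, ln_eval]
    exact h1
  have hX : Prime (Polynomial.X : Polynomial K) := Polynomial.prime_X
  have hYt : Polynomial.X ∣ ln x v1 (lf t) := by
    rw [Polynomial.X_dvd_iff, ln_coeff_zero]
    exact hxt
  have hYU : ¬ Polynomial.X ∣ ln x v1 (evt t' U) := by
    rw [Polynomial.X_dvd_iff, ln_coeff_zero, ← eval_evx]
    exact ht'U
  have hYl : ¬ Polynomial.X ∣ ln x v1 (lf t') := by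
    rw [Polynomial.X_dvd_iff, ln_coeff_zero, ← lf_symm]
    exact ht'l
  have hnd : ¬ Polynomial.X ∣ ln x v1 (evt t' U) * ln x v1 (lf t') ^ N := by
    intro h1
    rcases hX.dvd_or_dvd h1 with h2 | h2
    · exact hYU h2
    · exact hYl (hX.dvd_of_dvd_pow h2)
  have hzero : ∀ {P : Polynomial K} {n : ℕ}, P.natDegree ≤ n → n < N → Polynomial.X ^ N ∣ P →
      P = 0 := by
    intro P n h1 h2 h3
    by_contra hP
    have h4 := Polynomial.natDegree_le_of_dvd h3 hP
    rw [Polynomial.natDegree_X_pow] at h4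
    omega
  have hBt : ln x v1 (evt t B) = 0 := by
    refine hzero (ln_natDegree (XH.evt hB t) _ _) hb ?_
    refine hX.pow_dvd_of_dvd_mul_right N hnd ?_
    have h1 : ln x v1 (evt t B) * (ln x v1 (evt t' U) * ln x v1 (lf t') ^ N)
        = (ln x v1 (evt t U) * ln x v1 (evt t' B)) * ln x v1 (lf t) ^ N := by
      linear_combination (ln x v1 (evt t B)) * hrel' t' - (ln x v1 (evt t' B)) * hrel' t
        + (ln x v1 h) * hprop'
    rw [h1]
    exact (pow_dvd_pow_of_dvd hYt N).mul_left _
  have hAt : ln x v1 (evt t A) = 0 := by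
    refine hzero (ln_natDegree (XH.evt hA t) _ _) ha ?_
    refine hX.pow_dvd_of_dvd_mul_right N hnd ?_
    have h1 : ln x v1 (evt t A) * (ln x v1 (evt t' U) * ln x v1 (lf t') ^ N)
        = (ln x v1 (evt t U) * ln x v1 (evt t' A)) * ln x v1 (lf t) ^ N := by
      linear_combination (ln x v1 (evt t A)) * hrel' t' - (ln x v1 (evt t' A)) * hrel' t
        - (ln x v1 g) * hprop'
    rw [h1]
    exact (pow_dvd_pow_of_dvd hYt N).mul_left _
  have h1 := hrel' t
  rw [hAt, hBt, mul_zero, mul_zero, add_zero, add_zero] at h1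
  have h10 : (fun k => x k + v1 k * 1) = x1 := by
    funext k; rw [hv1]; ring
  have h2 := congrArg (Polynomial.eval 1) h1
  simp only [Polynomial.eval_mul, Polynomial.eval_pow, ln_eval, Polynomial.eval_zero] at h2
  rw [h10, ← eval_evx, ← lf_symm] at h2
  rcases mul_eq_zero.1 h2 with h3 | h3
  · exact htU h3
  · exact htl (eq_zero_of_pow_eq_zero h3)

end Pool.Agent.H868.RC
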