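import Pool.Agent.H868.RC.Theta

/-!
On a line `λ · x = 0` of the cubic `ρ (λ) = 0`.
-/

namespace Pool.Agent.H868.RC

open MvPolynomial
open Pool.Agent.Helper15K9.IC
open Pool.Agent.W695.SLP (lf Good)

variable {K : Type*} [Field K]

/-- the cross product -/
def cr (a t : Fin 3 → K) : Fin 3 → K :=
  ![a 1 * t 2 - a 2 * t 1, a 2 * t 0 - a 0 * t 2, a 0 * t 1 - a 1 * t 0]

lemma cr_left (a t : Fin 3 → K) : ∑ j, a j * cr a t j = 0 := by
  rw [Fin.sum_univ_three, cr]
  simp only [Matrix.cons_val_zero, Matrix.cons_val_one, Matrix.cons_val]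
  ring

lemma cr_right (a t : Fin 3 → K) : ∑ j, cr a t j * t j = 0 := by
  rw [Fin.sum_univ_three, cr]
  simp only [Matrix.cons_val_zero, Matrix.cons_val_one, Matrix.cons_val]
  ring

lemma exists_cr {a x : Fin 3 → K} (ha : a ≠ 0) (hx : ∑ j, a j * x j = 0) :
    ∃ t : Fin 3 → K, cr a t = x := by
  rw [Fin.sum_univ_three] at hx
  obtain ⟨m, hm⟩ := Function.ne_iff.mp ha
  rw [Pi.zero_apply] at hm
  fin_cases m
  · change a 0 ≠ 0 at hm
    refine ⟨![0, x 2 / a 0, -x 1 / a 0], ?_⟩
    funext j
    fin_cases j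
    · change a 1 * (-x 1 / a 0) - a 2 * (x 2 / a 0) = x 0
      field_simp
      linear_combination -hx
    · change a 2 * 0 - a 0 * (-x 1 / a 0) = x 1
      field_simp
      ring
    · change a 0 * (x 2 / a 0) - a 1 * 0 = x 2
      field_simp
      ring
  · change a 1 ≠ 0 at hm
    refine ⟨![-x 2 / a 1, 0, x 0 / a 1], ?_⟩
    funext j
    fin_cases j
    · change a 1 * (x 0 / a 1) - a 2 * 0 = x 0
      field_simp
      ring
    · change a 2 * (-x 2 / a 1) - a 0 * (x 0 / a 1) = x 1
      field_simp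
      linear_combination -hx
    · change a 0 * 0 - a 1 * (-x 2 / a 1) = x 2
      field_simp
      ring
  · change a 2 ≠ 0 at hm
    refine ⟨![x 1 / a 2, -x 0 / a 2, 0], ?_⟩
    funext j
    fin_cases j
    · change a 1 * 0 - a 2 * (-x 0 / a 2) = x 0
      field_simp
      ring
    · change a 2 * (x 1 / a 2) - a 0 * 0 = x 1
      field_simp
      ring
    · change a 0 * (-x 0 / a 2) - a 1 * (x 1 / a 2) = x 2
      field_simp
      linear_combination -hx

/-- the substitution `x = λ × t` -/
noncomputable def crP (a : Fin 3 → K) : R K →ₐ[K] R K :=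
  aeval ![C (a 1) * X 2 - C (a 2) * X 1, C (a 2) * X 0 - C (a 0) * X 2, C (a 0) * X 1 - C (a 1) * X 0]

lemma eval_crP (a t : Fin 3 → K) (P : R K) : eval t (crP a P) = eval (cr a t) P := by
  have h : ((aeval t : R K →ₐ[K] K).comp (crP a)) = aeval (cr a t) := by
    apply MvPolynomial.algHom_ext
    intro j
    rw [AlgHom.comp_apply, crP, aeval_X, aeval_X, cr]
    fin_cases j <;> simp
  have h1 := DFunLike.congr_fun h P
  rw [AlgHom.comp_apply] at h1
  rw [← MvPolynomial.aeval_eq_eval, ← MvPolynomial.aeval_eq_eval]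
  exact h1

/-- invariance under the translations by `a` -/
def Inv (a : Fin 3 → K) (P : R K) : Prop :=
  ∀ (t : Fin 3 → K) (s : K), eval (fun k => t k + a k * s) P = eval t P

lemma Inv.mul {a : Fin 3 → K} {P Q : R K} (hP : Inv a P) (hQ : Inv a Q) : Inv a (P * Q) := by
  intro t s
  rw [map_mul, map_mul, hP, hQ]

lemma inv_of_factors {a : Fin 3 → K} {P : R K} (hP : P ≠ 0)
    (h : ∀ c : R K, Irreducible c → c ∣ P → Inv a c) : Inv a P := by
  obtain ⟨v, hv⟩ := UniqueFactorizationMonoid.factors_prod hP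
  rw [← hv]
  refine Inv.mul ?_ ?_
  · have h1 : ∀ s : Multiset (R K), (∀ c ∈ s, Inv a c) → Inv a s.prod := by
      intro s
      induction s using Multiset.induction_on with
      | empty =>
        intro _ t s
        rw [Multiset.prod_zero, map_one, map_one]
      | cons c s ih =>
        intro hs
        rw [Multiset.prod_cons]
        exact (hs c (Multiset.mem_cons_self _ _)).mul
          (ih fun c' hc' => hs c' (Multiset.mem_cons_of_mem hc'))
    apply h1
    intro c hc
    exact h c (UniqueFactorizationMonoid.irreducible_of_factor c hc)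
      (UniqueFactorizationMonoid.dvd_of_mem_factors hc)
  · have h1 := v.isUnit
    rw [MvPolynomial.isUnit_iff_eq_C_of_isReduced] at h1
    obtain ⟨r, _, hr⟩ := h1
    intro t s
    rw [hr, eval_C, eval_C]

lemma inv_of_dvd_lf {a x : Fin 3 → K} {c : R K} (hc : Irreducible c) (hx : x ≠ 0)
    (hax : ∑ j, a j * x j = 0) (h : c ∣ lf x) : Inv a c := by
  obtain ⟨v, hv⟩ := (hc.dvd_irreducible_iff_associated (irreducible_lf hx)).1 h |>.symm
  have h1 := v.isUnit
  rw [MvPolynomial.isUnit_iff_eq_C_of_isReduced] at h1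
  obtain ⟨r, _, hr⟩ := h1
  intro t s
  rw [← hv, map_mul, map_mul, hr, eval_C, eval_C, eval_lf, eval_lf]
  have h2 : ∑ j, x j * (t j + a j * s) = ∑ j, x j * t j + s * ∑ j, a j * x j := by
    rw [Finset.mul_sum, ← Finset.sum_add_distrib]
    exact Finset.sum_congr rfl fun j _ => by ring
  rw [h2, hax, mul_zero, add_zero]

lemma not_dvd_h (D : Dt K) {p : R K} (hp : Irreducible p) (hpf : p ∣ D.f) : ¬ p ∣ D.h := by
  rintro ⟨q, hq⟩
  obtain ⟨r, hr⟩ := hpf
  have hr0 : r ≠ 0 := by
    rintro rfl
    rw [mul_zero] at hr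
    exact D.hf0 hr
  have h1 : D.f ∣ D.h * r := ⟨q, by rw [hq, hr]; ring⟩
  have h2 := D.hch _ h1
  rw [hr] at h2
  obtain ⟨s, hs⟩ := h2
  apply hp.not_isUnit
  apply isUnit_of_dvd_one (a := p)
  refine ⟨s, ?_⟩
  apply mul_left_cancel₀ hr0
  linear_combination hs

theorem lineC [CharZero K] [IsAlgClosed K] (D : Dt K) (S : Sz D) {lam : Fin 3 → K}
    (hlam0 : lam ≠ 0) (hlam : lf lam ∣ D.f) (hlin : Lin D.f (lf lam)) {e : ℕ}
    (F : CD D S (lf lam) e) (hred : ∀ c : R K, Irreducible c →
      ∃ t : Fin 3 → K, eval t c = 0 ∧ ¬ (lf lam) ∣ evt t F.U) :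
    ∑ k, C (lam k) * F.ρ k = 0 := by
  classical
  have hinf : Infinite K := inferInstance
  have hN0 : (D.N : K) ≠ 0 := Nat.cast_ne_zero.2 (by have := D.hN; omega)
  have hθ0 : F.θ ≠ 0 := by
    intro h
    apply theta_ne D S hlam0 hlam
    rw [F.hθ, h, mul_zero]
  have hinv : Inv lam F.θ := by
    apply inv_of_factors hθ0
    intro c hc hcθ
    obtain ⟨x, hx0, hx, hcx⟩ := lineB D S hlam0 hlam hlin F hred hc hcθ
    exact inv_of_dvd_lf hc hx0 hx hcx
  have hh0 : crP lam D.h ≠ 0 := by
    intro h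
    obtain ⟨x, hx1, hx2⟩ := exists_zero_ne (irreducible_lf hlam0)
      (not_dvd_h D (irreducible_lf hlam0) hlam)
    rw [eval_lf] at hx1
    obtain ⟨t, ht⟩ := exists_cr hlam0 hx1
    apply hx2
    rw [← ht, ← eval_crP, h, map_zero]
  have key : F.θ * (crP lam D.h * ∑ k, C (lam k) * F.ρ k) = 0 := by
    apply MvPolynomial.funext
    intro t
    rw [map_zero, map_mul, map_mul, eval_crP]
    by_cases hθt : eval t F.θ = 0
    · rw [hθt, zero_mul]
    by_cases hht : eval (cr lam t) D.h = 0
    · rw [hht, zero_mul, mul_zero]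
    obtain ⟨x, hx⟩ : ∃ x, x = cr lam t := ⟨_, rfl⟩
    rw [← hx] at hht ⊢
    have hxl : ∑ j, lam j * x j = 0 := by rw [hx]; exact cr_left _ _
    have hxt : ∑ j, x j * t j = 0 := by rw [hx]; exact cr_right _ _
    have hx0 : x ≠ 0 := by
      rintro rfl
      apply hht
      have h1 := eval_smul_hom D.hh (0 : K) (0 : Fin 3 → K)
      rw [zero_smul, zero_pow (by have := D.hic; omega), zero_mul] at h1
      exact h1
    obtain ⟨i, hi⟩ := Function.ne_iff.mp hx0
    rw [Pi.zero_apply] at hi
    have hP := F.hrel x (by rw [eval_lf]; exact hxl)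
    have hls : ∀ s : K, eval (fun k => t k + lam k * s) (lf x) = 0 := by
      intro s
      rw [eval_lf]
      have h2 : ∑ j, x j * (t j + lam j * s) = ∑ j, x j * t j + s * ∑ j, lam j * x j := by
        rw [Finset.mul_sum, ← Finset.sum_add_distrib]
        exact Finset.sum_congr rfl fun j _ => by ring
      rw [h2, hxt, hxl]; simp
    have hprod : ln t lam (evx x F.U) * ln t lam (evx x F.B)
        = Polynomial.C (eval x D.h * eval t F.θ / D.N) := by
      apply Polynomial.funext
      intro s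
      rw [Polynomial.eval_mul, ln_eval, ln_eval, Polynomial.eval_C]
      have h1 := congrArg (eval (fun k => t k + lam k * s)) (hP.e1 i)
      simp only [map_sub, map_add, map_mul, eval_C, map_natCast, hls s, zero_mul, mul_zero,
        zero_add, sub_zero, add_zero, hinv t s] at h1
      rw [eq_div_iff hN0]
      apply mul_left_cancel₀ hi
      linear_combination h1
    have hne : eval x D.h * eval t F.θ / D.N ≠ 0 := div_ne_zero (mul_ne_zero hht hθt) hN0
    have hunit : IsUnit (ln t lam (evx x F.U) * ln t lam (evx x F.B)) := by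
      rw [hprod]
      exact (isUnit_iff_ne_zero.2 hne).map Polynomial.C
    have hder : ∀ P : R K, IsUnit (ln t lam P) → ∑ k, lam k * eval t (pderiv k P) = 0 := by
      intro P hP
      obtain ⟨r, _, hr⟩ := Polynomial.isUnit_iff.1 hP
      have h1 := ln_deriv t lam P
      rw [← hr, Polynomial.derivative_C] at h1
      have h2 := congrArg (fun p => Polynomial.coeff p 0) h1
      simp only [Polynomial.coeff_zero, Polynomial.finsetSum_coeff, Polynomial.coeff_C_mul,
        ln_coeff_zero] at h2
      exact h2.symm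
    have hU := hder _ (isUnit_of_mul_isUnit_left hunit)
    have hB := hder _ (isUnit_of_mul_isUnit_right hunit)
    have hl0 := lf_ne hx0
    have hsum : (∑ k, C (lam k) * pderiv k (evx x F.U)) * evx x F.B
        - evx x F.U * (∑ k, C (lam k) * pderiv k (evx x F.B))
        = C (eval x D.h) * ∑ k, C (lam k) * F.ρ k := by
      apply mul_left_cancel₀ hl0
      have h1 : ∑ k, C (lam k) * ((lf x * pderiv k (evx x F.U)
          + (D.N : R K) * (C (x k) * evx x F.U)) * evx x F.B
            - evx x F.U * lf x * pderiv k (evx x F.B))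
          = ∑ k, C (lam k) * (C (eval x D.h) * (F.θ * C (x k) + F.ρ k * lf x)) :=
        Finset.sum_congr rfl fun k _ => by rw [hP.e1 k]
      have h2 : C (lam 0) * C (x 0) + C (lam 1) * C (x 1) + C (lam 2) * C (x 2) = (0 : R K) := by
        rw [← C_mul, ← C_mul, ← C_mul, ← C_add, ← C_add, ← C_0]
        congr 1
        rw [Fin.sum_univ_three] at hxl
        exact hxl
      simp only [Fin.sum_univ_three] at h1 ⊢
      linear_combination h1 - ((D.N : R K) * evx x F.U * evx x F.B
        - C (eval x D.h) * F.θ) * h2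
    have h3 := congrArg (eval t) hsum
    simp only [map_sub, map_mul, map_sum, eval_C] at h3
    rw [hU, hB, zero_mul, mul_zero, sub_zero] at h3
    have h4 := (mul_eq_zero.1 h3.symm).resolve_left hht
    rw [map_sum]
    simp only [map_mul, eval_C]
    rw [h4, mul_zero, mul_zero]
  have h1 := (mul_eq_zero.1 key).resolve_left hθ0
  exact (mul_eq_zero.1 h1).resolve_left hh0

end Pool.Agent.H868.RC
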