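import Pool.Agent.H868.RC.Trick2

/-!
After the removal of the content on a component `p` of the cubic, `ρ` is parallel to the gradient along
every component of the discriminant.
-/

namespace Pool.Agent.H868.RC

open MvPolynomial
open Pool.Agent.Helper15K9.IC
open Pool.Agent.W695.SLP (lf Good)

variable {K : Type*} [Field K]

lemma evx_smul {n : ℕ} {P : RT K} (h : XH n P) (s : K) (x : Fin 3 → K) :
    evx (s • x) P = C (s ^ n) * evx x P := by
  ext1 m
  rw [evx, evx, coeff_map, coeff_C_mul, coeff_map, eval_smul_hom (h m)]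

lemma ln_ext [Infinite K] {a v : Fin 3 → K} {P : R K}
    (h : ∀ y : K, eval (fun k => a k + v k * y) P = 0) : ln a v P = 0 := by
  apply Polynomial.funext
  intro y
  rw [ln_eval, h y, Polynomial.eval_zero]

/-- two nonzero functionals do not vanish simultaneously at some vector -/
lemma exists_two {a b : Fin 3 → K} {j k : Fin 3} (ha : a j ≠ 0) (hb : b k ≠ 0) :
    ∃ v : Fin 3 → K, ∑ i, v i * a i ≠ 0 ∧ ∑ i, v i * b i ≠ 0 := by
  classical
  have e : ∀ (c : Fin 3 → K) (j : Fin 3), ∑ i, (Pi.single j 1 : Fin 3 → K) i * c i = c j := by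
    intro c j
    rw [Finset.sum_eq_single j]
    · simp
    · intro l _ hl
      rw [Pi.single_eq_of_ne hl, zero_mul]
    · intro h; exact absurd (Finset.mem_univ _) h
  by_cases h1 : a k = 0
  · by_cases h2 : b j = 0
    · refine ⟨Pi.single j 1 + Pi.single k 1, ?_, ?_⟩
      · simp only [Pi.add_apply, add_mul, Finset.sum_add_distrib, e, h1, add_zero]
        exact ha
      · simp only [Pi.add_apply, add_mul, Finset.sum_add_distrib, e, h2, zero_add]
        exact hb
    · exact ⟨Pi.single j 1, by rw [e]; exact ha, by rw [e]; exact h2⟩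
  · exact ⟨Pi.single k 1, by rw [e]; exact h1, by rw [e]; exact hb⟩

/-- a polynomial relation over a line contained in the cubic -/
lemma line_rel [Infinite K] (D : Dt K) (S : Sz D) {x0 v1 : Fin 3 → K}
    (hline : ∀ y : K, eval (fun k => x0 k + v1 k * y) D.f = 0) (t : Fin 3 → K) :
    ln x0 v1 (evt t D.u) * ln x0 v1 (lf t) ^ D.N + ln x0 v1 D.h * ln x0 v1 (evt t S.A)
      + ln x0 v1 D.g * ln x0 v1 (evt t S.B) = 0 := by
  obtain ⟨Q, hQ⟩ := S.hP0
  have h1 := congrArg (fun P => ln x0 v1 (evt t P)) hQ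
  simp only [map_add, map_mul, map_pow, evt_gl, evt_C, ln_add, ln_mul, ln_pow,
    ln_ext hline, zero_mul] at h1
  exact h1

lemma trick_one [CharZero K] [IsAlgClosed K] (D : Dt K) (S : Sz D) {lam x0 x2 : Fin 3 → K}
    (hlam : lf lam ∣ D.f) (hx0 : ∑ j, lam j * x0 j = 0) (hx2 : ∑ j, lam j * x2 j = 0)
    {c θ' : R K} {ρ' : Fin 3 → R K} {m : ℕ} (hc : Irreducible c)
    (hθ : S.θ = c ^ m * θ') (hρ : ∀ k, S.ρ k = c ^ m * ρ' k) (hcl : ¬ c ∣ lf x0)
    (hA : c ∣ evx x0 S.A) (hB : c ∣ evx x0 S.B) (hU : ¬ c ∣ evx x2 D.u) (k : Fin 3) :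
    c ∣ θ' * C (x0 k) + ρ' k * lf x0 := by
  classical
  by_contra hk
  have hinf : Infinite K := inferInstance
  have hx00 : x0 ≠ 0 := by
    rintro rfl
    apply hcl
    have : lf (0 : Fin 3 → K) = 0 := by
      rw [lf]; simp
    rw [this]
    exact dvd_zero _
  have hx0f : eval x0 D.f = 0 := by
    obtain ⟨r, hr⟩ := hlam
    rw [hr, map_mul, eval_lf, hx0, zero_mul]
  have hu0 : c ∣ evx x0 D.u := by
    obtain ⟨h0, -, -⟩ := over_x D S hx0f
    have h1 : c ∣ evx x0 D.u * lf x0 ^ D.N := by
      have h2 : evx x0 D.u * lf x0 ^ D.N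
          = -(C (eval x0 D.h) * evx x0 S.A + C (eval x0 D.g) * evx x0 S.B) := by
        linear_combination h0
      rw [h2]
      exact (dvd_neg).2 (dvd_add (hA.mul_left _) (hB.mul_left _))
    refine (hc.prime.dvd_or_dvd h1).resolve_right fun h => hcl (hc.prime.dvd_of_dvd_pow h)
  have hind : ∀ s : K, x2 ≠ s • x0 := by
    intro s hs
    apply hU
    rw [hs, evx_smul D.hux]
    exact hu0.mul_left _
  obtain ⟨v1, hv1⟩ : ∃ v1 : Fin 3 → K, v1 = fun k => x2 k - x0 k := ⟨_, rfl⟩
  have hline0 : ∀ y : K, ∑ j, lam j * (x0 j + v1 j * y) = 0 := by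
    intro y
    have : ∑ j, lam j * (x0 j + v1 j * y)
        = (1 - y) * ∑ j, lam j * x0 j + y * ∑ j, lam j * x2 j := by
      rw [Finset.mul_sum, Finset.mul_sum, ← Finset.sum_add_distrib]
      exact Finset.sum_congr rfl fun j _ => by rw [hv1]; ring
    rw [this, hx0, hx2]; simp
  have hline : ∀ y : K, eval (fun k => x0 k + v1 k * y) D.f = 0 := by
    intro y
    obtain ⟨r, hr⟩ := hlam
    rw [hr, map_mul, eval_lf, hline0 y, zero_mul]
  have hne : ∀ y : K, (fun k => x0 k + v1 k * y) ≠ (0 : Fin 3 → K) := by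
    intro y hy
    by_cases hy0 : y = 0
    · apply hx00
      funext k
      have := congrFun hy k
      rw [hy0] at this
      simpa using this
    · apply hind (-((1 - y) / y))
      funext k
      have h1 := congrFun hy k
      rw [hv1] at h1
      simp only [Pi.zero_apply] at h1
      rw [Pi.smul_apply, smul_eq_mul]
      field_simp
      linear_combination h1
  obtain ⟨j, hj⟩ := CR.exists_pderiv hc
  obtain ⟨t, htc, htP⟩ := exists_zero_ne (q := evx x2 D.u * lf x0 *
      (θ' * C (x0 k) + ρ' k * lf x0) * pderiv j c) hc (by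
    intro h
    rcases hc.prime.dvd_or_dvd h with h | h
    · rcases hc.prime.dvd_or_dvd h with h | h
      · rcases hc.prime.dvd_or_dvd h with h | h
        · exact hU h
        · exact hcl h
      · exact hk h
    · exact hj h)
  simp only [map_mul, mul_ne_zero_iff] at htP
  obtain ⟨⟨⟨h1, h2⟩, h3⟩, h4⟩ := htP
  obtain ⟨v, hva, hvb⟩ := exists_two (a := fun i => eval t (pderiv i c))
    (b := fun i => eval t (θ' * C (x0 i) + ρ' i * lf x0)) h4 h3
  have hAt : eval x0 (evt t S.A) = 0 := by
    rw [← eval_evx]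
    obtain ⟨q, hq⟩ := hA
    rw [hq, map_mul, htc, zero_mul]
  have hBt : eval x0 (evt t S.B) = 0 := by
    rw [← eval_evx]
    obtain ⟨q, hq⟩ := hB
    rw [hq, map_mul, htc, zero_mul]
  have h5 := trick_pt D S (n := 1) hline hne hθ hρ htc hva h2
    (by rw [pow_one, Polynomial.X_dvd_iff, ln_coeff_zero]; exact hAt)
    (by rw [pow_one, Polynomial.X_dvd_iff, ln_coeff_zero]; exact hBt) (by
      by_contra hcon
      push Not at hcon
      have h6 := line_rel D S hline t
      rw [hcon.1, hcon.2, mul_zero, mul_zero, add_zero, add_zero] at h6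
      have h7 : ln x0 v1 (lf t) ≠ 0 := by
        intro h
        have := ln_coeff_zero x0 v1 (lf t)
        rw [h, Polynomial.coeff_zero, ← lf_symm] at this
        exact h2 this.symm
      have h8 := (mul_eq_zero.1 h6).resolve_right (pow_ne_zero _ h7)
      have h9 := ln_eval x0 v1 (evt t D.u) 1
      rw [h8, Polynomial.eval_zero] at h9
      apply h1
      rw [eval_evx]
      have h10 : (fun k => x0 k + v1 k * 1) = x2 := by
        funext k; rw [hv1]; ring
      rw [h10] at h9
      exact h9.symm)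
  rw [pow_one, Polynomial.X_dvd_iff] at h5
  simp only [Polynomial.coeff_add, Polynomial.coeff_C_mul, ln_coeff_zero] at h5
  apply hvb
  rw [eval_lf, ← lf_symm x0 t] at h5
  have h6 : ∑ i, v i * eval t (θ' * C (x0 i) + ρ' i * lf x0)
      = eval t θ' * ∑ j, v j * x0 j + (∑ k, v k * eval t (ρ' k)) * eval t (lf x0) := by
    rw [Finset.mul_sum, Finset.sum_mul, ← Finset.sum_add_distrib]
    refine Finset.sum_congr rfl fun i _ => ?_
    rw [map_add, map_mul, map_mul, eval_C]
    ring
  rw [h6]
  exact h5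

/-- along `ℓ_x` the operators `x_j ∂_k - x_k ∂_j` preserve divisibility -/
lemma lf_dvd_op {x : Fin 3 → K} {P : R K} (h : lf x ∣ P) (j k : Fin 3) :
    lf x ∣ C (x j) * pderiv k P - C (x k) * pderiv j P := by
  obtain ⟨Q, rfl⟩ := h
  refine ⟨C (x j) * pderiv k Q - C (x k) * pderiv j Q, ?_⟩
  rw [pderiv_mul, pderiv_mul, pderiv_lf, pderiv_lf]
  ring

/-- the case of a component of the discriminant which is the pencil of lines through a point `x` -/
lemma PtRel.direct [CharZero K] {N : ℕ} {x : Fin 3 → K} {g h : K} {u A B θ : R K}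
    {ρ : Fin 3 → R K} (P : PtRel N x g h u A B θ ρ) (hN : 1 ≤ N) (hgh : g ≠ 0 ∨ h ≠ 0)
    (hx : x ≠ 0) (hθ : lf x ∣ θ) (j k : Fin 3) : lf x ∣ C (x j) * ρ k - C (x k) * ρ j := by
  have hl := irreducible_lf hx
  have hl0 := hl.ne_zero
  obtain ⟨i, hi⟩ := Function.ne_iff.mp hx
  rw [Pi.zero_apply] at hi
  have hN0 : (N : K) ≠ 0 := Nat.cast_ne_zero.2 (by omega)
  have hNx : ((N : K) * x i) ≠ 0 := mul_ne_zero hN0 hi
  have hNC : (N : R K) = C (N : K) := (map_natCast C _).symm
  have huB : lf x ∣ u * B := by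
    apply C_dvd_mul hNx
    have h1 := P.e1 i
    have h2 : C ((N : K) * x i) * (u * B) = C h * (θ * C (x i) + ρ i * lf x)
        - lf x * (pderiv i u * B - u * pderiv i B) := by
      rw [← h1, C_mul, ← hNC]; ring
    rw [h2]
    exact dvd_sub ((dvd_add (hθ.mul_right _) (Dvd.intro_left _ rfl)).mul_left _)
      (Dvd.intro _ rfl)
  have huA : lf x ∣ u * A := by
    apply C_dvd_mul hNx
    have h1 := P.e2 i
    have h2 : C ((N : K) * x i) * (u * A) = -(C g * (θ * C (x i) + ρ i * lf x))
        - lf x * (pderiv i u * A - u * pderiv i A) := by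
      rw [← h1, C_mul, ← hNC]; ring
    rw [h2]
    exact dvd_sub ((dvd_neg).2 ((dvd_add (hθ.mul_right _) (Dvd.intro_left _ rfl)).mul_left _))
      (Dvd.intro _ rfl)
  have hh : C h * (C (x j) * ρ k - C (x k) * ρ j)
      = (C (x j) * pderiv k u - C (x k) * pderiv j u) * B
        - u * (C (x j) * pderiv k B - C (x k) * pderiv j B) := by
    apply mul_left_cancel₀ hl0
    linear_combination (-(C (x j))) * P.e1 k + (C (x k)) * P.e1 j
  have hg : C g * (C (x j) * ρ k - C (x k) * ρ j)
      = -((C (x j) * pderiv k u - C (x k) * pderiv j u) * A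
        - u * (C (x j) * pderiv k A - C (x k) * pderiv j A)) := by
    apply mul_left_cancel₀ hl0
    linear_combination (C (x j)) * P.e2 k - (C (x k)) * P.e2 j
  rcases hl.prime.dvd_or_dvd huB with hu | hB
  · rcases hgh with hg0 | hh0
    · apply C_dvd_mul hg0
      rw [hg]
      exact (dvd_neg).2 (dvd_sub ((lf_dvd_op hu j k).mul_right _) (hu.mul_right _))
    · apply C_dvd_mul hh0
      rw [hh]
      exact dvd_sub ((lf_dvd_op hu j k).mul_right _) (hu.mul_right _)
  · rcases hl.prime.dvd_or_dvd huA with hu | hA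
    · rcases hgh with hg0 | hh0
      · apply C_dvd_mul hg0
        rw [hg]
        exact (dvd_neg).2 (dvd_sub ((lf_dvd_op hu j k).mul_right _) (hu.mul_right _))
      · apply C_dvd_mul hh0
        rw [hh]
        exact dvd_sub ((lf_dvd_op hu j k).mul_right _) (hu.mul_right _)
    · rcases hgh with hg0 | hh0
      · apply C_dvd_mul hg0
        rw [hg]
        exact (dvd_neg).2 (dvd_sub (hA.mul_left _) ((lf_dvd_op hA j k).mul_left _))
      · apply C_dvd_mul hh0
        rw [hh]
        exact dvd_sub (hB.mul_left _) ((lf_dvd_op hB j k).mul_left _)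

end Pool.Agent.H868.RC
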