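import Pool.Agent.H868.RC.Star

/-!
After the removal of the content on a component `p` of the cubic, `ρ` is parallel to the gradient along
every component of the discriminant.
-/

namespace Pool.Agent.H868.RC

open MvPolynomial
open Pool.Agent.Helper15K9.IC
open Pool.Agent.W695.SLP (lf Good)

variable {K : Type*} [Field K]

/-- all components of the cubic other than `p` are lines, and the cubic is square-free -/
def Lin (f p : R K) : Prop :=
  ∀ s : R K, p ∣ s → (∀ lam : Fin 3 → K, lam ≠ 0 → lf lam ∣ f → lf lam ∣ s) → f ∣ s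

theorem star [CharZero K] [IsAlgClosed K] (D : Dt K) (S : Sz D) {p : R K} (hp : Irreducible p)
    (hpf : p ∣ D.f) (hlin : Lin D.f p) {e : ℕ} (F : CD D S p e) {c : R K} (hc : Irreducible c)
    (hcθ : c ∣ F.θ) (j k : Fin 3) : c ∣ F.ρ j * pderiv k c - F.ρ k * pderiv j c := by
  classical
  have hph : p.IsHomogeneous p.totalDegree := Pool.Agent.Chud.homog_of_dvd D.hf D.hf0 hpf
  have hpd := totalDegree_pos hp
  have hxf : ∀ x : Fin 3 → K, eval x p = 0 → eval x D.f = 0 := by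
    intro x hx
    obtain ⟨r, hr⟩ := hpf
    rw [hr, map_mul, hx, zero_mul]
  by_cases hcH : c ∣ F.H
  swap
  · have h1 := cross D S hc (by rw [F.hθ]; exact hcθ.mul_left _) j k
    rw [F.hρ, F.hρ] at h1
    have h2 : F.H ^ 2 * F.ρ j * pderiv k c - F.H ^ 2 * F.ρ k * pderiv j c
        = F.H ^ 2 * (F.ρ j * pderiv k c - F.ρ k * pderiv j c) := by ring
    rw [h2] at h1
    exact (hc.prime.dvd_or_dvd h1).resolve_left fun h => hcH (hc.prime.dvd_of_dvd_pow h)
  by_cases hx : ∃ x : Fin 3 → K, x ≠ 0 ∧ eval x p = 0 ∧ c ∣ lf x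
  · obtain ⟨x, hx0, hxp, hcx⟩ := hx
    have hass : Associated c (lf x) := (hc.dvd_irreducible_iff_associated (irreducible_lf hx0)).1 hcx
    obtain ⟨a, ha⟩ := hass.symm
    obtain ⟨a', ha'⟩ : ∃ a' : K, (a : R K) = C a' := by
      have h1 := a.isUnit
      rw [MvPolynomial.isUnit_iff_eq_C_of_isReduced] at h1
      obtain ⟨r, _, hr⟩ := h1
      exact ⟨r, hr⟩
    have hcl : c = C a' * lf x := by rw [← ha, ha']; ring
    have h1 := (F.hrel x hxp).direct D.hN (gh_ne D hx0 (hxf x hxp)) hx0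
      (hass.symm.dvd.trans hcθ) j k
    have h2 : F.ρ j * pderiv k c - F.ρ k * pderiv j c
        = -(C a' * (C (x j) * F.ρ k - C (x k) * F.ρ j)) := by
      rw [hcl, pderiv_C_mul, pderiv_C_mul, pderiv_lf, pderiv_lf]
      ring
    rw [h2]
    exact (dvd_neg).2 ((hass.dvd.trans h1).mul_left _)
  push Not at hx
  by_cases hρ0 : ∃ k, S.ρ k ≠ 0
  swap
  · push Not at hρ0
    have h1 : ∀ k, F.ρ k = 0 := by
      intro k
      have h2 := F.hρ k
      rw [hρ0 k] at h2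
      exact (mul_eq_zero.1 h2.symm).resolve_left (pow_ne_zero _ F.hH)
    rw [h1, h1, zero_mul, zero_mul, sub_zero]
    exact dvd_zero _
  obtain ⟨m, ρ', hρ', k0, hk0⟩ := exists_pow hc hρ0
  set θ' : R K := -∑ k, X k * ρ' k with hθ'def
  have hθ' : S.θ = c ^ m * θ' := by
    have h1 := S.heul
    simp only [hρ'] at h1
    rw [hθ'def, mul_neg, Finset.mul_sum]
    have h2 : ∑ k, X k * (c ^ m * ρ' k) = ∑ k, c ^ m * (X k * ρ' k) :=
      Finset.sum_congr rfl fun k _ => by ring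
    rw [← h2, h1, neg_neg]
  obtain ⟨t0, ht0c, ht0⟩ := D.hmin c hc
  have hpt0 : p ∣ evt t0 D.u := by
    apply dvd_of_zeros hp
    intro x hx
    rw [← eval_evx, F.hu x hx, map_mul]
    obtain ⟨q, hq⟩ := hcH
    rw [hq, map_mul, ht0c, zero_mul, zero_mul]
  obtain ⟨lam, hlam0, hlamf, hlamu⟩ : ∃ lam : Fin 3 → K, lam ≠ 0 ∧ lf lam ∣ D.f ∧
      ¬ lf lam ∣ evt t0 D.u := by
    by_contra hcon
    push Not at hcon
    exact ht0 (hlin _ hpt0 hcon)
  obtain ⟨x2, hx2l, hx2u⟩ := exists_zero_ne (irreducible_lf hlam0) hlamu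
  obtain ⟨x0, hx00, hx0l, hx0p⟩ := exists_zero_on_plane hph hpd hlam0
  have hcl0 := hx x0 hx00 hx0p
  have hcA : c ∣ evx x0 S.A := by
    rw [F.ha x0 hx0p]
    exact hcH.mul_right _
  have hcB : c ∣ evx x0 S.B := by
    rw [F.hb x0 hx0p]
    exact hcH.mul_right _
  have hcu : ¬ c ∣ evx x2 D.u := by
    rintro ⟨q, hq⟩
    apply hx2u
    rw [← eval_evx, hq, map_mul, ht0c, zero_mul]
  have h1 := trick_one D S hlamf hx0l (by rw [← eval_lf]; exact hx2l) hc hθ' hρ' hcl0 hcA hcB hcu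
  have hcθ' : ¬ c ∣ θ' := by
    intro h
    apply hk0
    have h2 := h1 k0
    have h3 : c ∣ ρ' k0 * lf x0 := (dvd_add_right (h.mul_right _)).1 h2
    exact (hc.prime.dvd_or_dvd h3).resolve_right hcl0
  obtain ⟨r, H', hH', hH⟩ := WfDvdMonoid.max_power_factor F.hH hc
  have hθ2 : c ^ (2 * r + 1) ∣ c ^ m * θ' := by
    rw [← hθ', F.hθ, hH]
    obtain ⟨q, hq⟩ := hcθ
    refine ⟨H' ^ 2 * q, ?_⟩
    have e1 : c ^ (2 * r + 1) = (c ^ r) ^ 2 * c := by rw [pow_succ, mul_comm 2 r, pow_mul]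
    rw [hq, e1]
    ring
  have hm : 2 * r + 1 ≤ m := by
    by_contra hlt
    push Not at hlt
    apply hcθ'
    have h2 : c ^ (m + 1) ∣ c ^ m * θ' := (pow_dvd_pow c hlt).trans hθ2
    rw [pow_succ] at h2
    exact (mul_dvd_mul_iff_left (pow_ne_zero _ hc.ne_zero)).1 h2
  have hρc : ∀ k, c ∣ F.ρ k := by
    intro k
    have h2 : c ^ (2 * r + 1) ∣ S.ρ k := by
      rw [hρ' k]
      exact (pow_dvd_pow c hm).mul_right _
    rw [F.hρ k, hH] at h2
    have h3 : (c ^ r * H') ^ 2 * F.ρ k = c ^ (2 * r) * (H' ^ 2 * F.ρ k) := by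
      rw [mul_pow, ← pow_mul, mul_comm r 2]; ring
    rw [h3, pow_succ] at h2
    have h4 := (mul_dvd_mul_iff_left (pow_ne_zero (2 * r) hc.ne_zero)).1 h2
    exact (hc.prime.dvd_or_dvd h4).resolve_left fun h => hH' (hc.prime.dvd_of_dvd_pow h)
  exact dvd_sub ((hρc j).mul_right _) ((hρc k).mul_right _)

end Pool.Agent.H868.RC
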