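import Pool.Agent.H868.RC.Def

/-!
Existence of the syzygy data (following `Helper15K9.IC.Syz`).
-/

namespace Pool.Agent.H868.RC

open MvPolynomial
open Pool.Agent.Helper15K9.IC
open Pool.Agent.W695.SLP (lf Good)
open Pool.Agent.TH61.SL (hc comp_mul hc_zero hc_hom comp_self comp_ne)

variable {K : Type*} [Field K]

theorem syz (D : Dt K) : Nonempty (Sz D) := by
  obtain ⟨A, B, hA, hB, hAx, hBx, hP0⟩ := D.exists_AB
  have hN := D.hN
  have hd := D.hd
  have hib := D.hib
  have hic := D.hic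
  have hux : XH D.i D.u := D.hux
  have hXH : ∀ {b : ℕ} {B : RT K}, D.i < b → B.IsHomogeneous (D.d + D.N) → XH (b - D.i) B → ∀ k,
      XH (b + 1) (D.s k * B - D.u * gl K * pderiv k B) ∧
      (D.s k * B - D.u * gl K * pderiv k B).IsHomogeneous (2 * D.d + D.N) := by
    intro b B hb hB hBx k
    constructor
    · exact (((D.s_XH k).mul hBx).cast (by omega)).sub
        (((hux.mul XH.gl).mul (hBx.pderiv k)).cast (by omega))
    · have h4 := (D.s_hom k).mul hB
      have h5 := (D.hut.mul gl_hom).mul (hB.pderiv (i := k))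
      rw [show D.d + (D.d + D.N) = 2 * D.d + D.N by omega] at h4
      rw [show D.d + 1 + (D.d + D.N - 1) = 2 * D.d + D.N by omega] at h5
      exact h4.sub h5
  have h1 : ∀ k, ∃ κ : RT K, κ.IsHomogeneous (2 * D.d + D.N) ∧ XH 1 κ ∧
      (C D.f : RT K) ∣ (D.s k * B - D.u * gl K * pderiv k B) - C D.h * κ ∧
      (C D.f : RT K) ∣ (D.s k * A - D.u * gl K * pderiv k A) + C D.g * κ := fun k =>
    D.reg_lift (hXH hib hA hAx k).1 (hXH hic hB hBx k).1 (hXH hib hA hAx k).2 (hXH hic hB hBx k).2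
      (D.rel hP0 k)
  choose κ hκt hκ hκB hκA using h1
  obtain ⟨Z₁, hZ₁t, hZ₁, e1⟩ := D.exists_Z hA hB hAx hBx hκ hκB hκA 0 1
  obtain ⟨Z₂, hZ₂t, hZ₂, e2⟩ := D.exists_Z hA hB hAx hBx hκ hκB hκA 0 2
  obtain ⟨θ, ρ, hθ, hρ, hκe⟩ := Dat.exists_theta (n := 2 * D.d + D.N) (by omega) hκ hκt hZ₁ hZ₂
    hZ₁t hZ₂t e1 e2
  -- Euler
  have heul : ∑ k, X k * κ k = 0 := by
    have h3 : (C D.f : RT K) ∣ C D.h * ∑ k, X k * κ k := by
      have eu := D.hut.sum_X_mul_pderiv
      have eB := hB.sum_X_mul_pderiv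
      rw [nsmul_eq_mul] at eu eB
      have h4 : C D.h * ∑ k, X k * κ k
          = -∑ k, X k * ((D.s k * B - D.u * gl K * pderiv k B) - C D.h * κ k) := by
        have h5 : ∑ k, X k * (D.s k * B - D.u * gl K * pderiv k B) = 0 := by
          have h6 : ∑ k, X k * (D.s k * B - D.u * gl K * pderiv k B)
              = (gl K * (∑ k, X k * pderiv k D.u) + (D.N : RT K) * (gl K * D.u)) * B
                - D.u * gl K * ∑ k, X k * pderiv k B := by
            conv_rhs => rw [gl]
            simp only [Dt.s, Fin.sum_univ_three, gl]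
            ring
          rw [h6, eu, eB]
          push_cast
          ring
        simp only [mul_sub, Finset.sum_sub_distrib]
        simp only [mul_sub, Finset.sum_sub_distrib] at h5
        rw [h5, zero_sub, neg_neg, Finset.mul_sum]
        exact Finset.sum_congr rfl fun k _ => by ring
      have h5 : (C D.f : RT K) ∣
          ∑ k, X k * ((D.s k * B - D.u * gl K * pderiv k B) - C D.h * κ k) :=
        Finset.dvd_sum fun k _ => Dvd.dvd.mul_left (hκB k) _
      obtain ⟨q, hq⟩ := h5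
      rw [h4, hq]
      exact ⟨-q, by ring⟩
    have h4 : (C D.f : RT K) ∣ ∑ k, X k * κ k := D.h_cancel h3
    refine eq_zero_of_C_dvd D.hf (n := 1) (XH.sum _ _ fun k _ => ?_) (by norm_num) h4
    exact ((XH.X k).mul (hκ k)).cast (by omega)
  have hgl0 : (gl K : RT K) ≠ 0 := by
    intro h
    have h2 := congrArg (evx (Pi.single 0 1)) h
    rw [evx_gl, map_zero, lf, Fin.sum_univ_three] at h2
    simp at h2
  have heul' : ∑ k, X k * ρ k = -θ := by
    have h3 : gl K * tt (θ + ∑ k, X k * ρ k) = 0 := by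
      rw [← heul]
      simp only [hκe, Fin.sum_univ_three, map_add, map_mul, tt_X]
      have hgl : gl K = X 0 * C (X 0) + X 1 * C (X 1) + X 2 * C (X 2) := by
        rw [gl, Fin.sum_univ_three]
      rw [hgl]
      ring
    rcases mul_eq_zero.1 h3 with h4 | h4
    · exact absurd h4 hgl0
    · have := Dat.tt_inj h4
      linear_combination this
  refine ⟨⟨A, B, θ, ρ, hA, hB, hAx, hBx, hP0, hθ, hρ, heul', fun k => ?_, fun k => ?_⟩⟩
  · have := hκB k
    rwa [hκe k] at this
  · have := hκA k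
    rwa [hκe k] at this

end Pool.Agent.H868.RC
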