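import Pool.Agent.H868.RC.LineA

/-!
The discriminant is not zero; on a line of the cubic the discriminant is, after the removal of the
content, a product of pencils of lines through points of the line.
-/

namespace Pool.Agent.H868.RC

open MvPolynomial
open Pool.Agent.Helper15K9.IC
open Pool.Agent.W695.SLP (lf Good)

variable {K : Type*} [Field K]

lemma C_dvd_of_evx [IsAlgClosed K] {p : R K} (hp : Irreducible p) {P : RT K}
    (h : ∀ x : Fin 3 → K, eval x p = 0 → evx x P = 0) : (C p : RT K) ∣ P := by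
  rw [C_dvd_iff_dvd_coeff]
  intro m
  apply dvd_of_zeros hp
  intro x hx
  have h2 := congrArg (coeff m) (h x hx)
  rw [evx, coeff_map, coeff_zero] at h2
  exact h2

lemma prop_of_wr [CharZero K] {A B : R K} (h : ∀ k, A * pderiv k B - B * pderiv k A = 0)
    (t t' : Fin 3 → K) : eval t A * eval t' B = eval t' A * eval t B := by
  obtain ⟨v, hv⟩ : ∃ v : Fin 3 → K, v = fun k => t' k - t k := ⟨_, rfl⟩
  have e0 : ∀ P : R K, Polynomial.eval 0 (ln t v P) = eval t P := by
    intro P
    rw [ln_eval]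
    congr 1
    simp
  have e1 : ∀ P : R K, Polynomial.eval 1 (ln t v P) = eval t' P := by
    intro P
    have : (fun k => t k + v k * 1) = t' := by
      funext k; rw [hv]; ring
    rw [ln_eval, this]
  by_cases ha : ln t v A = 0
  · rw [← e0 A, ← e1 A, ha, Polynomial.eval_zero, Polynomial.eval_zero, zero_mul, zero_mul]
  · have hw : Polynomial.wronskian (ln t v A) (ln t v B) = 0 := by
      rw [Polynomial.wronskian, ln_deriv, ln_deriv, Finset.mul_sum, Finset.sum_mul,
        ← Finset.sum_sub_distrib]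
      refine Finset.sum_eq_zero fun k _ => ?_
      have h1 := congrArg (ln t v) (h k)
      rw [ln_sub, ln_mul, ln_mul] at h1
      have h2 : ln t v (0 : R K) = 0 := map_zero (lnH t v)
      rw [h2] at h1
      linear_combination (Polynomial.C (v k)) * h1
    obtain ⟨s, hs⟩ := Pool.Agent.W695.SLP.wron_eq_zero ha hw
    rw [← e0 A, ← e1 A, ← e0 B, ← e1 B, hs]
    simp only [Polynomial.eval_mul, Polynomial.eval_C]
    ring

/-- the cubic contains a point of a line component where `u` does not vanish -/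
lemma exists_pt_line [CharZero K] [IsAlgClosed K] {P : RT K} {n : ℕ} (hP : XH n P) (hn : 1 ≤ n)
    {lam : Fin 3 → K} (hlam0 : lam ≠ 0) (h : ¬ (C (lf lam) : RT K) ∣ P) :
    ∃ x : Fin 3 → K, ∑ j, lam j * x j = 0 ∧ x ≠ 0 ∧ evx x P ≠ 0 := by
  by_contra hcon
  push Not at hcon
  apply h
  apply C_dvd_of_evx (irreducible_lf hlam0)
  intro x hx
  by_cases hx0 : x = 0
  · have h1 := evx_smul hP (0 : K) (0 : Fin 3 → K)
    rw [zero_smul, zero_pow (by omega), C_0, zero_mul] at h1
    rw [hx0]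
    exact h1
  · exact hcon x (by rwa [eval_lf] at hx) hx0

theorem theta_ne [CharZero K] [IsAlgClosed K] (D : Dt K) (S : Sz D) {lam : Fin 3 → K}
    (hlam0 : lam ≠ 0) (hlam : lf lam ∣ D.f) : S.θ ≠ 0 := by
  intro hθ
  have hρ := rho_zero D S hθ
  have hxf : ∀ x : Fin 3 → K, ∑ j, lam j * x j = 0 → eval x D.f = 0 := by
    intro x hx
    obtain ⟨r, hr⟩ := hlam
    rw [hr, map_mul, eval_lf, hx, zero_mul]
  obtain ⟨x1, hx1, hx10, hx1u⟩ := exists_pt_line D.hux D.hi hlam0
    (D.hfac _ (irreducible_lf hlam0) hlam)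
  have hdeg := D.hdeg
  have hib := D.hib
  have hic := D.hic
  refine lineA (c := 0) (g := D.g) (h := D.h) D.hux S.hAx S.hBx (N := D.N) (by omega) (by omega)
    hlam0 ?_ (Or.inl rfl) ?_ ?_ hx1 hx10 ?_
  · intro x hx
    exact (over_x D S (hxf x hx)).1
  · intro x hx0 _ h
    exact lf_ne hx0 (zero_dvd_iff.1 h)
  · intro x hx0 hx t t' _ _
    obtain ⟨h0, h1, h2⟩ := over_x D S (hxf x hx)
    have hP : PtRel D.N x (eval x D.g) (eval x D.h) (evx x D.u) (evx x S.A) (evx x S.B) S.θ S.ρ :=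
      ⟨h0, h1, h2⟩
    apply prop_of_wr
    intro k
    rw [hP.wr D.hN (gh_ne D hx0 (hxf x hx)) k, hθ, hρ k]
    simp
  · intro h
    exact hx1u (zero_dvd_iff.1 h)

/-- on a line, all components of the reduced discriminant are pencils of lines through points of the
line -/
theorem lineB [CharZero K] [IsAlgClosed K] (D : Dt K) (S : Sz D) {lam : Fin 3 → K}
    (hlam0 : lam ≠ 0) (hlam : lf lam ∣ D.f) (hlin : Lin D.f (lf lam)) {e : ℕ}
    (F : CD D S (lf lam) e) (hred : ∀ c : R K, Irreducible c →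
      ∃ t : Fin 3 → K, eval t c = 0 ∧ ¬ (lf lam) ∣ evt t F.U)
    {c : R K} (hc : Irreducible c) (hcθ : c ∣ F.θ) :
    ∃ x : Fin 3 → K, x ≠ 0 ∧ ∑ j, lam j * x j = 0 ∧ c ∣ lf x := by
  by_contra hcon
  push Not at hcon
  have hxf : ∀ x : Fin 3 → K, ∑ j, lam j * x j = 0 → eval x D.f = 0 := by
    intro x hx
    obtain ⟨r, hr⟩ := hlam
    rw [hr, map_mul, eval_lf, hx, zero_mul]
  have hxl : ∀ x : Fin 3 → K, ∑ j, lam j * x j = 0 → eval x (lf lam) = 0 := by
    intro x hx
    rw [eval_lf]; exact hx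
  obtain ⟨t0, ht0c, ht0⟩ := hred c hc
  obtain ⟨x1, hx1, hx1u⟩ := exists_zero_ne (irreducible_lf hlam0) ht0
  have hx1c : ¬ c ∣ evx x1 F.U := by
    rintro ⟨q, hq⟩
    apply hx1u
    rw [← eval_evx, hq, map_mul, ht0c, zero_mul]
  have hx10 : x1 ≠ 0 := by
    rintro rfl
    apply hx1c
    have h1 := evx_smul F.hUx (0 : K) (0 : Fin 3 → K)
    rw [zero_smul, zero_pow (by have := D.hi; omega), C_0, zero_mul] at h1
    rw [h1]
    exact dvd_zero _
  rw [eval_lf] at hx1
  have hst := star D S (irreducible_lf hlam0) hlam hlin F hc hcθ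
  have hdeg := D.hdeg
  have hib := D.hib
  have hic := D.hic
  refine lineA (c := c) (g := D.g) (h := D.h) F.hUx F.hAx F.hBx (N := D.N) (by omega) (by omega)
    hlam0 ?_ (Or.inr hc) hcon ?_ hx1 hx10 hx1c
  · intro x hx
    exact (F.hrel x (hxl x hx)).e0
  · intro x hx0 hx t t' ht ht'
    have hP := F.hrel x (hxl x hx)
    have hwr := hP.wr D.hN (gh_ne D hx0 (hxf x hx))
    obtain ⟨α, β, hαβ, hdvd⟩ := constRatio K c (evx x F.A) (evx x F.B) hc (by
      intro i j
      rw [hwr i, hwr j]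
      have e1 : lf x ^ (D.N - 1) * (F.θ * C (x i) + F.ρ i * lf x) * pderiv j c
          - lf x ^ (D.N - 1) * (F.θ * C (x j) + F.ρ j * lf x) * pderiv i c
          = F.θ * (lf x ^ (D.N - 1) * (C (x i) * pderiv j c - C (x j) * pderiv i c))
            + (F.ρ i * pderiv j c - F.ρ j * pderiv i c) * (lf x ^ (D.N - 1) * lf x) := by ring
      rw [e1]
      exact dvd_add (Dvd.dvd.mul_right hcθ _) (Dvd.dvd.mul_right (hst i j) _))
    obtain ⟨q, hq⟩ := hdvd
    have h1 := congrArg (eval t) hq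
    have h2 := congrArg (eval t') hq
    simp only [map_sub, map_mul, eval_C, ht, ht', zero_mul] at h1 h2
    rcases hαβ with hα | hβ
    · apply mul_left_cancel₀ hα
      linear_combination (-(eval t (evx x F.A))) * h2 + (eval t' (evx x F.A)) * h1
    · apply mul_left_cancel₀ hβ
      linear_combination (eval t' (evx x F.B)) * h1 - (eval t (evx x F.B)) * h2

end Pool.Agent.H868.RC
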