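import Pool.Agent.H868.RC.LineC

/-!
Three distinct lines: there is no generic kernel vector.
-/

namespace Pool.Agent.H868.RC

open MvPolynomial
open Pool.Agent.Helper15K9.IC
open Pool.Agent.W695.SLP (lf Good)

variable {K : Type*} [Field K]

/-- the cubic is a product of three distinct lines -/
structure Tri (f : R K) (lam : Fin 3 → (Fin 3 → K)) : Prop where
  ne : ∀ j, lam j ≠ 0
  dvd : ∀ j, lf (lam j) ∣ f
  all : ∀ s : R K, (∀ j, lf (lam j) ∣ s) → f ∣ s
  pair : ∀ j k, j ≠ k → ∀ s : K, lam j ≠ s • lam k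

lemma Tri.lin {f : R K} {lam : Fin 3 → (Fin 3 → K)} (T : Tri f lam) (j : Fin 3) :
    Lin f (lf (lam j)) := by
  intro s _ h2
  exact T.all s fun k => h2 _ (T.ne k) (T.dvd k)

lemma rho_cr {a b : Fin 3 → K} {ρ : Fin 3 → R K} (ha : ∑ k, C (a k) * ρ k = 0)
    (hb : ∑ k, C (b k) * ρ k = 0) (j k : Fin 3) :
    ρ j * C (cr a b k) = ρ k * C (cr a b j) := by
  rw [Fin.sum_univ_three] at ha hb
  fin_cases j <;> fin_cases k
  · rfl
  · change ρ 0 * C (a 2 * b 0 - a 0 * b 2) = ρ 1 * C (a 1 * b 2 - a 2 * b 1)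
    simp only [C_sub, C_mul]
    linear_combination (C (a 2)) * hb - (C (b 2)) * ha
  · change ρ 0 * C (a 0 * b 1 - a 1 * b 0) = ρ 2 * C (a 1 * b 2 - a 2 * b 1)
    simp only [C_sub, C_mul]
    linear_combination (C (b 1)) * ha - (C (a 1)) * hb
  · change ρ 1 * C (a 1 * b 2 - a 2 * b 1) = ρ 0 * C (a 2 * b 0 - a 0 * b 2)
    simp only [C_sub, C_mul]
    linear_combination (C (b 2)) * ha - (C (a 2)) * hb
  · rfl
  · change ρ 1 * C (a 0 * b 1 - a 1 * b 0) = ρ 2 * C (a 2 * b 0 - a 0 * b 2)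
    simp only [C_sub, C_mul]
    linear_combination (C (a 0)) * hb - (C (b 0)) * ha
  · change ρ 2 * C (a 1 * b 2 - a 2 * b 1) = ρ 0 * C (a 0 * b 1 - a 1 * b 0)
    simp only [C_sub, C_mul]
    linear_combination (C (a 1)) * hb - (C (b 1)) * ha
  · change ρ 2 * C (a 2 * b 0 - a 0 * b 2) = ρ 1 * C (a 0 * b 1 - a 1 * b 0)
    simp only [C_sub, C_mul]
    linear_combination (C (b 0)) * ha - (C (a 0)) * hb
  · rfl

lemma vec_cr {a b : Fin 3 → K} {x : Fin 3 → K} (ha : ∑ k, a k * x k = 0)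
    (hb : ∑ k, b k * x k = 0) (j k : Fin 3) : x j * cr a b k = x k * cr a b j := by
  have h1 := rho_cr (a := a) (b := b) (ρ := fun k => C (x k)) (by
    simp only [← C_mul, ← map_sum, ha, C_0]) (by simp only [← C_mul, ← map_sum, hb, C_0]) j k
  rw [← C_mul, ← C_mul] at h1
  exact C_injective _ _ h1

lemma cr_ne {a b : Fin 3 → K} (hb : b ≠ 0) (h : ∀ s : K, a ≠ s • b) : cr a b ≠ 0 := by
  intro h0
  obtain ⟨j, k, hjk⟩ := exists_minor hb h
  apply hjk
  have e0 : a 1 * b 2 - a 2 * b 1 = 0 := congrFun h0 0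
  have e1 : a 2 * b 0 - a 0 * b 2 = 0 := congrFun h0 1
  have e2 : a 0 * b 1 - a 1 * b 0 = 0 := congrFun h0 2
  fin_cases j <;> fin_cases k
  · change a 0 * b 0 - a 0 * b 0 = 0; ring
  · exact e2
  · change a 0 * b 2 - a 2 * b 0 = 0; linear_combination -e1
  · change a 1 * b 0 - a 0 * b 1 = 0; linear_combination -e2
  · change a 1 * b 1 - a 1 * b 1 = 0; ring
  · exact e0
  · exact e1
  · change a 2 * b 1 - a 1 * b 2 = 0; linear_combination -e0
  · change a 2 * b 2 - a 2 * b 2 = 0; ring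

/-- two vectors orthogonal to two independent vectors -/
lemma perp_two {a b x y : Fin 3 → K} (hb : b ≠ 0) (hab : ∀ s : K, a ≠ s • b) (hx0 : x ≠ 0)
    (hxa : ∑ k, a k * x k = 0) (hxb : ∑ k, b k * x k = 0)
    (hya : ∑ k, a k * y k = 0) (hyb : ∑ k, b k * y k = 0) : ∃ s : K, y = s • x := by
  obtain ⟨m, hm⟩ := Function.ne_iff.mp (cr_ne hb hab)
  rw [Pi.zero_apply] at hm
  have hx : ∀ j, x j = (x m / cr a b m) * cr a b j := by
    intro j
    have h1 := vec_cr hxa hxb j m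
    field_simp
    linear_combination h1
  have hy : ∀ j, y j = (y m / cr a b m) * cr a b j := by
    intro j
    have h1 := vec_cr hya hyb j m
    field_simp
    linear_combination h1
  have hxm : x m ≠ 0 := by
    intro h
    apply hx0
    funext j
    rw [hx j, h]; simp
  refine ⟨y m / x m, ?_⟩
  funext j
  rw [Pi.smul_apply, smul_eq_mul, hx j, hy j]
  field_simp

/-- on the line `λ · x = 0` the content divides the value at `t0` -/
lemma CD.not_dvd_H [IsAlgClosed K] {D : Dt K} {S : Sz D} {p : R K} (hp : Irreducible p) {e : ℕ}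
    (F : CD D S p e) {c : R K} {t0 : Fin 3 → K} (ht0c : eval t0 c = 0)
    (ht0 : ¬ p ∣ evt t0 D.u) : ¬ c ∣ F.H := by
  rintro ⟨q, hq⟩
  apply ht0
  apply dvd_of_zeros hp
  intro x hx
  rw [← eval_evx, F.hu x hx, map_mul, hq, map_mul, ht0c, zero_mul, zero_mul]

lemma Tri.exists_u {D : Dt K} {lam : Fin 3 → (Fin 3 → K)} (T : Tri D.f lam) {c : R K}
    (hc : Irreducible c) : ∃ (t0 : Fin 3 → K) (j : Fin 3), eval t0 c = 0 ∧
      ¬ lf (lam j) ∣ evt t0 D.u := by
  obtain ⟨t0, ht0c, ht0⟩ := D.hmin c hc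
  by_contra hcon
  push Not at hcon
  exact ht0 (T.all _ fun j => hcon t0 j ht0c)

lemma X_dvd_ln {x0 v1 : Fin 3 → K} {P : R K} (h : eval x0 P = 0) :
    Polynomial.X ∣ ln x0 v1 P := by
  rw [Polynomial.X_dvd_iff, ln_coeff_zero]
  exact h

theorem three_D1 [CharZero K] [IsAlgClosed K] (D : Dt K) (S : Sz D)
    {lam : Fin 3 → (Fin 3 → K)} (T : Tri D.f lam) {p0 : Fin 3 → K} {μ : R K}
    (hp0 : ∀ j, ∑ k, lam j k * p0 k = 0) (hp00 : p0 ≠ 0)
    (hμ : μ ≠ 0) (hρ : ∀ k, S.ρ k = μ * C (p0 k)) (hθ : S.θ = -(μ * lf p0))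
    {c : R K} (hc : Irreducible c) (hcμ : c ∣ μ) : c ∣ lf p0 := by
  classical
  by_contra hcl
  have hinf : Infinite K := inferInstance
  obtain ⟨t0, j, ht0c, ht0⟩ := T.exists_u hc
  have hex := fun k => exists_CD D S (irreducible_lf (T.ne k)) (T.dvd k)
  choose e F hF using hex
  have hcθ : c ∣ S.θ := by
    rw [hθ]
    exact (dvd_neg).2 (hcμ.mul_right _)
  have hFθ : ∀ k, ¬ c ∣ (F k).H → ∃ x : Fin 3 → K, x ≠ 0 ∧ ∑ i, lam k i * x i = 0 ∧ c ∣ lf x := by
    intro k hk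
    apply lineB D S (T.ne k) (T.dvd k) (T.lin k) (F k) (hF k) hc
    rw [(F k).hθ] at hcθ
    exact (hc.prime.dvd_or_dvd hcθ).resolve_left fun h => hk (hc.prime.dvd_of_dvd_pow h)
  obtain ⟨q, hq0, hqj, hcq⟩ := hFθ j ((F j).not_dvd_H (irreducible_lf (T.ne j)) ht0c ht0)
  have hass : Associated c (lf q) := (hc.dvd_irreducible_iff_associated (irreducible_lf hq0)).1 hcq
  have hH : ∀ k, k ≠ j → c ∣ (F k).H := by
    intro k hkj
    by_contra hk
    obtain ⟨q', hq'0, hq'k, hcq'⟩ := hFθ k hk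
    obtain ⟨s, hs⟩ := lf_dvd_lf hq0 (hass.symm.dvd.trans hcq')
    have hs0 : s ≠ 0 := by
      rintro rfl
      rw [zero_smul] at hs
      exact hq'0 hs
    have hqk : ∑ i, lam k i * q i = 0 := by
      rw [hs] at hq'k
      have : ∑ i, lam k i * (s • q) i = s * ∑ i, lam k i * q i := by
        rw [Finset.mul_sum]
        exact Finset.sum_congr rfl fun j _ => by simp only [Pi.smul_apply, smul_eq_mul]; ring
      rw [this] at hq'k
      exact (mul_eq_zero.1 hq'k).resolve_left hs0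
    obtain ⟨s', hs'⟩ := perp_two (T.ne j) (T.pair k j hkj) hq0 hqk hqj (hp0 k) (hp0 j)
    apply hcl
    rw [hs', lf_smul]
    exact hcq.mul_left _
  have hthree : ∀ j : Fin 3, ∃ k l : Fin 3, k ≠ j ∧ l ≠ j ∧ k ≠ l := by decide
  obtain ⟨k, l, hkj, hlj, hkl⟩ := hthree j
  have hxl : ∀ (k : Fin 3) (x : Fin 3 → K), ∑ i, lam k i * x i = 0 → eval x (lf (lam k)) = 0 := by
    intro k x hx
    rw [eval_lf]; exact hx
  obtain ⟨x2, hx2l, hx2u⟩ := exists_zero_ne (irreducible_lf (T.ne j)) ht0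
  have hcu : ¬ c ∣ evx x2 D.u := by
    rintro ⟨q, hq⟩
    apply hx2u
    rw [← eval_evx, hq, map_mul, ht0c, zero_mul]
  have hu0 : c ∣ evx p0 D.u := by
    rw [(F k).hu p0 (hxl k p0 (hp0 k))]
    exact (hH k hkj).mul_right _
  have hind : ∀ s : K, x2 ≠ s • p0 := by
    intro s hs
    apply hcu
    rw [hs, evx_smul D.hux]
    exact hu0.mul_left _
  obtain ⟨m, μ', hcμ', hμ'⟩ := WfDvdMonoid.max_power_factor hμ hc
  obtain ⟨i0, hi0⟩ := CR.exists_pderiv hc
  obtain ⟨t, htc, htP⟩ := exists_zero_ne (q := evx x2 D.u * lf p0 * μ' * pderiv i0 c) hc (by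
    intro h
    rcases hc.prime.dvd_or_dvd h with h | h
    · rcases hc.prime.dvd_or_dvd h with h | h
      · rcases hc.prime.dvd_or_dvd h with h | h
        · exact hcu h
        · exact hcl h
      · exact hcμ' h
    · exact hi0 h)
  simp only [map_mul, mul_ne_zero_iff] at htP
  obtain ⟨⟨⟨h1, h2⟩, h3⟩, h4⟩ := htP
  obtain ⟨i1, hi1⟩ : ∃ i, eval t (-(μ' * lf p0) * C (x2 i) + μ' * C (p0 i) * lf x2) ≠ 0 := by
    by_contra hcon
    push Not at hcon
    apply hind (eval t (lf x2) / eval t (lf p0))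
    funext i
    have h5 := hcon i
    simp only [map_add, map_mul, map_neg, eval_C] at h5
    rw [Pi.smul_apply, smul_eq_mul]
    field_simp
    apply mul_left_cancel₀ h3
    linear_combination -h5
  obtain ⟨v, hva, hvb⟩ := exists_two (a := fun i => eval t (pderiv i c))
    (b := fun i => eval t (-(μ' * lf p0) * C (x2 i) + μ' * C (p0 i) * lf x2)) h4 hi1
  obtain ⟨v1, hv1⟩ : ∃ v1 : Fin 3 → K, v1 = fun k => x2 k - p0 k := ⟨_, rfl⟩
  have hline0 : ∀ y : K, ∑ i, lam j i * (p0 i + v1 i * y) = 0 := by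
    intro y
    rw [eval_lf] at hx2l
    have : ∑ i, lam j i * (p0 i + v1 i * y)
        = (1 - y) * ∑ i, lam j i * p0 i + y * ∑ i, lam j i * x2 i := by
      rw [Finset.mul_sum, Finset.mul_sum, ← Finset.sum_add_distrib]
      exact Finset.sum_congr rfl fun j _ => by rw [hv1]; ring
    rw [this, hp0 j, hx2l]; simp
  have hline : ∀ y : K, eval (fun k => p0 k + v1 k * y) D.f = 0 := by
    intro y
    obtain ⟨r, hr⟩ := T.dvd j
    rw [hr, map_mul, eval_lf, hline0 y, zero_mul]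
  have hne : ∀ y : K, (fun k => p0 k + v1 k * y) ≠ (0 : Fin 3 → K) := by
    intro y hy
    by_cases hy0 : y = 0
    · apply hp00
      funext k
      have := congrFun hy k
      rw [hy0] at this
      simpa using this
    · apply hind (-((1 - y) / y))
      funext k
      have h1 := congrFun hy k
      rw [hv1] at h1
      simp only [Pi.zero_apply] at h1
      rw [Pi.smul_apply, smul_eq_mul]
      field_simp
      linear_combination h1
  have hX2 : ∀ P : RT K, (∀ k, k ≠ j → ∀ x : Fin 3 → K, ∑ i, lam k i * x i = 0 →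
      c ∣ evx x P) → Polynomial.X ^ 2 ∣ ln p0 v1 (evt t P) := by
    intro P hP
    have hdv : ∀ k, k ≠ j → lf (lam k) ∣ evt t P := by
      intro k hkj
      apply dvd_of_zeros (irreducible_lf (T.ne k))
      intro x hx
      rw [eval_lf] at hx
      obtain ⟨q, hq⟩ := hP k hkj x hx
      rw [← eval_evx, hq, map_mul, htc, zero_mul]
    obtain ⟨q1, hq1⟩ := hdv k hkj
    have h5 := hdv l hlj
    rw [hq1] at h5
    have h6 : ¬ lf (lam l) ∣ lf (lam k) := by
      intro h
      obtain ⟨s, hs⟩ := lf_dvd_lf (T.ne l) h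
      exact T.pair k l hkl s hs
    obtain ⟨q2, hq2⟩ := ((irreducible_lf (T.ne l)).prime.dvd_or_dvd h5).resolve_left h6
    rw [hq1, hq2, ln_mul, ln_mul, pow_two]
    obtain ⟨r1, hr1⟩ := X_dvd_ln (v1 := v1) (hxl k p0 (hp0 k))
    obtain ⟨r2, hr2⟩ := X_dvd_ln (v1 := v1) (hxl l p0 (hp0 l))
    rw [hr1, hr2]
    exact ⟨r1 * r2 * ln p0 v1 q2, by ring⟩
  have h5 := trick_pt D S (n := 2) (m := m) (c := c) (θ' := -(μ' * lf p0))
    (ρ' := fun k => μ' * C (p0 k)) hline hne (by rw [hθ, hμ']; ring)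
    (fun k => by rw [hρ k, hμ']; ring) htc hva h2
    (hX2 _ fun k hkj x hx => by
      rw [(F k).ha x (hxl k x hx)]
      exact (hH k hkj).mul_right _)
    (hX2 _ fun k hkj x hx => by
      rw [(F k).hb x (hxl k x hx)]
      exact (hH k hkj).mul_right _)
    (by
      by_contra hcon
      push Not at hcon
      have h6 := line_rel D S hline t
      rw [hcon.1, hcon.2, mul_zero, mul_zero, add_zero, add_zero] at h6
      have h7 : ln p0 v1 (lf t) ≠ 0 := by
        intro h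
        have := ln_coeff_zero p0 v1 (lf t)
        rw [h, Polynomial.coeff_zero, ← lf_symm] at this
        exact h2 this.symm
      have h8 := (mul_eq_zero.1 h6).resolve_right (pow_ne_zero _ h7)
      have h9 := ln_eval p0 v1 (evt t D.u) 1
      rw [h8, Polynomial.eval_zero] at h9
      apply h1
      rw [eval_evx]
      have h10 : (fun k => p0 k + v1 k * 1) = x2 := by
        funext k; rw [hv1]; ring
      rw [h10] at h9
      exact h9.symm)
  set P : Polynomial K := Polynomial.C (eval t (-(μ' * lf p0))) * ln p0 v1 (lf v)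
      + Polynomial.C (∑ k, v k * eval t (μ' * C (p0 k))) * ln p0 v1 (lf t) with hP
  have hdegP : P.natDegree ≤ 1 := by
    refine (Polynomial.natDegree_add_le _ _).trans (max_le ?_ ?_)
    · exact (Polynomial.natDegree_C_mul_le _ _).trans
        (ln_natDegree (Pool.Agent.W695.SLP.lf_hom v) _ _)
    · exact (Polynomial.natDegree_C_mul_le _ _).trans
        (ln_natDegree (Pool.Agent.W695.SLP.lf_hom t) _ _)
  have hP0 : P = 0 := by
    by_contra h6
    have h7 := Polynomial.natDegree_le_of_dvd h5 h6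
    rw [Polynomial.natDegree_X_pow] at h7
    omega
  have h6 := congrArg (Polynomial.eval 1) hP0
  rw [hP] at h6
  simp only [Polynomial.eval_add, Polynomial.eval_mul, Polynomial.eval_C, ln_eval,
    Polynomial.eval_zero] at h6
  have h10 : (fun k => p0 k + v1 k * 1) = x2 := by
    funext k; rw [hv1]; ring
  rw [h10] at h6
  apply hvb
  rw [eval_lf, ← lf_symm x2 t] at h6
  rw [← h6, Finset.mul_sum, Finset.sum_mul, ← Finset.sum_add_distrib]
  refine Finset.sum_congr rfl fun i _ => ?_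
  rw [map_add, map_mul, map_mul, eval_C]
  ring

theorem three [CharZero K] [IsAlgClosed K] (D : Dt K) {lam : Fin 3 → (Fin 3 → K)}
    (T : Tri D.f lam) : False := by
  classical
  obtain ⟨S⟩ := syz D
  have hC : ∀ j, ∑ k, C (lam j k) * S.ρ k = 0 := by
    intro j
    obtain ⟨e, F, hF⟩ := exists_CD D S (irreducible_lf (T.ne j)) (T.dvd j)
    have h1 := lineC D S (T.ne j) (T.dvd j) (T.lin j) F hF
    have h2 : ∑ k, C (lam j k) * S.ρ k = F.H ^ 2 * ∑ k, C (lam j k) * F.ρ k := by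
      rw [Finset.mul_sum]
      exact Finset.sum_congr rfl fun k _ => by rw [F.hρ k]; ring
    rw [h2, h1, mul_zero]
  have hθ0 := theta_ne D S (T.ne 0) (T.dvd 0)
  obtain ⟨p0, hp0⟩ : ∃ p0, p0 = cr (lam 0) (lam 1) := ⟨_, rfl⟩
  have hp00 : p0 ≠ 0 := by
    rw [hp0]
    exact cr_ne (T.ne 1) (T.pair 0 1 (by decide))
  obtain ⟨m0, hm0⟩ := Function.ne_iff.mp hp00
  rw [Pi.zero_apply] at hm0
  obtain ⟨μ, hμdef⟩ : ∃ μ : R K, μ = C (p0 m0)⁻¹ * S.ρ m0 := ⟨_, rfl⟩
  have hρ : ∀ k, S.ρ k = μ * C (p0 k) := by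
    intro k
    have h1 := rho_cr (hC 0) (hC 1) k m0
    rw [← hp0] at h1
    have h2 : (C (p0 m0)⁻¹ : R K) * C (p0 m0) = 1 := by
      rw [← C_mul, inv_mul_cancel₀ hm0, C_1]
    rw [hμdef]
    linear_combination (-(S.ρ k)) * h2 + (C (p0 m0)⁻¹) * h1
  have hθ : S.θ = -(μ * lf p0) := by
    have h1 := S.heul
    simp only [hρ] at h1
    rw [lf, Finset.mul_sum]
    rw [← neg_eq_iff_eq_neg, ← h1]
    exact Finset.sum_congr rfl fun k _ => by ring
  have hμ : μ ≠ 0 := by
    rintro rfl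
    apply hθ0
    rw [hθ, zero_mul, neg_zero]
  have hp0l : ∀ j, ∑ k, lam j k * p0 k = 0 := by
    intro j
    have h1 := hC j
    have h2 : ∑ k, C (lam j k) * S.ρ k = μ * C (∑ k, lam j k * p0 k) := by
      rw [map_sum, Finset.mul_sum]
      exact Finset.sum_congr rfl fun k _ => by rw [hρ k, C_mul]; ring
    rw [h2] at h1
    have h3 := (mul_eq_zero.1 h1).resolve_left hμ
    rwa [map_eq_zero_iff _ (C_injective _ _)] at h3
  have hD1 := fun (c : R K) (hc : Irreducible c) (hcμ : c ∣ μ) =>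
    three_D1 D S T hp0l hp00 hμ hρ hθ hc hcμ
  have hlp := irreducible_lf hp00
  obtain ⟨m, μ', hcμ', hμ'⟩ := WfDvdMonoid.max_power_factor hμ hlp
  have hμ'0 : μ' ≠ 0 := by
    rintro rfl
    exact hcμ' (dvd_zero _)
  have hunit : IsUnit μ' := by
    by_contra hu
    obtain ⟨c, hc, hcd⟩ := WfDvdMonoid.exists_irreducible_factor hu hμ'0
    have h1 := hD1 c hc (by rw [hμ']; exact hcd.mul_left _)
    have h2 := (hc.dvd_irreducible_iff_associated hlp).1 h1
    exact hcμ' (h2.symm.dvd.trans hcd)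
  obtain ⟨a, ha⟩ : ∃ a : K, μ' = C a := by
    rw [MvPolynomial.isUnit_iff_eq_C_of_isReduced] at hunit
    obtain ⟨r, _, hr⟩ := hunit
    exact ⟨r, hr⟩
  have ha0 : a ≠ 0 := by
    rintro rfl
    rw [C_0] at ha
    exact hμ'0 ha
  obtain ⟨t0, j, ht0c, ht0⟩ := T.exists_u hlp
  obtain ⟨k, hkj⟩ : ∃ k : Fin 3, k ≠ j := exists_ne j
  obtain ⟨x2, hx2l, hx2u⟩ := exists_zero_ne (q := evt t0 D.u * lf (lam k))
    (irreducible_lf (T.ne j)) (by
      intro h
      rcases (irreducible_lf (T.ne j)).prime.dvd_or_dvd h with h | h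
      · exact ht0 h
      · obtain ⟨s, hs⟩ := lf_dvd_lf (T.ne j) h
        exact T.pair k j hkj s hs)
  rw [map_mul, mul_ne_zero_iff] at hx2u
  obtain ⟨hx2u, hx2k⟩ := hx2u
  have hx20 : x2 ≠ 0 := by
    rintro rfl
    apply hx2k
    rw [eval_lf]; simp
  have hcu : ¬ lf p0 ∣ evx x2 D.u := by
    rintro ⟨q, hq⟩
    apply hx2u
    rw [← eval_evx, hq, map_mul, ht0c, zero_mul]
  have hx2f : eval x2 D.f = 0 := by
    obtain ⟨r, hr⟩ := T.dvd j
    rw [hr, map_mul, hx2l, zero_mul]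
  have hnp : ∀ s : K, x2 ≠ s • p0 := by
    intro s hs
    apply hx2k
    rw [eval_lf, hs]
    have : ∑ i, lam k i * (s • p0) i = s * ∑ i, lam k i * p0 i := by
      rw [Finset.mul_sum]
      exact Finset.sum_congr rfl fun j _ => by simp only [Pi.smul_apply, smul_eq_mul]; ring
    rw [this, hp0l k, mul_zero]
  have hpn : ∀ s : K, p0 ≠ s • x2 := by
    intro s hs
    have hs0 : s ≠ 0 := by
      rintro rfl
      rw [zero_smul] at hs
      exact hp00 hs
    apply hnp s⁻¹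
    rw [hs, smul_smul, inv_mul_cancel₀ hs0, one_smul]
  obtain ⟨h0, h1, h2⟩ := over_x D S hx2f
  obtain ⟨j1, k1, hjk⟩ := exists_minor hp00 hnp
  have hS := alongComponent K (constRatio K) D.N m (evx x2 D.u) (evx x2 S.A) (evx x2 S.B) S.θ
    (lf p0) S.ρ (fun k => C (a * p0 k)) x2 1 (eval x2 D.g) (eval x2 D.h) D.hN one_ne_zero
    (gh_ne D hx20 hx2f) (by rw [C_1, one_mul]; exact h0) h1 h2 hlp
    (by rw [hθ]; exact (dvd_neg).2 (Dvd.intro_left _ rfl)) hθ0 S.heul
    (by
      intro j k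
      rw [hρ, hρ, pderiv_lf, pderiv_lf]
      have : μ * C (p0 j) * C (p0 k) - μ * C (p0 k) * C (p0 j) = 0 := by ring
      rw [this]
      exact dvd_zero _)
    (by
      intro k
      rw [hρ, hμ', ha, C_mul]; ring)
    ⟨m0, by
      intro h
      refine hlp.not_isUnit (isUnit_of_dvd_unit h ?_)
      exact (isUnit_iff_ne_zero.2 (mul_ne_zero ha0 hm0)).map C⟩
    hcu
    (by
      intro h
      obtain ⟨s, hs⟩ := lf_dvd_lf hp00 h
      exact hnp s hs)
    (by
      intro h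
      have hlx := irreducible_lf hx20
      rw [hθ, dvd_neg, hμ', ha] at h
      have hpd : ¬ lf x2 ∣ lf p0 := by
        intro h
        obtain ⟨s, hs⟩ := lf_dvd_lf hx20 h
        exact hpn s hs
      rcases hlx.prime.dvd_or_dvd h with h | h
      · rcases hlx.prime.dvd_or_dvd h with h | h
        · exact hpd (hlx.prime.dvd_of_dvd_pow h)
        · exact hlx.not_isUnit (isUnit_of_dvd_unit h ((isUnit_iff_ne_zero.2 ha0).map C))
      · exact hpd h)
    (by
      rintro ⟨j, k, hjk⟩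
      exfalso
      apply hjk
      rw [pderiv_lf, pderiv_lf]
      have : (C (a * p0 j) * C (p0 k) - C (a * p0 k) * C (p0 j) : R K) = 0 := by
        rw [C_mul, C_mul]; ring
      rw [this]
      exact dvd_zero _)
    ⟨j1, k1, by
      intro h
      rw [pderiv_lf, pderiv_lf] at h
      have e : (C (x2 j1) * C (p0 k1) - C (x2 k1) * C (p0 j1) : R K)
          = C (x2 j1 * p0 k1 - x2 k1 * p0 j1) := by
        rw [C_sub, C_mul, C_mul]
      rw [e] at h
      exact hlp.not_isUnit (isUnit_of_dvd_unit h ((isUnit_iff_ne_zero.2 hjk).map C))⟩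
    0 (by rw [eval_lf]; simp) (by
      have h3 : (evx x2 D.u).IsHomogeneous D.d := D.hut.map _
      have h4 := eval_smul_hom h3 0 (0 : Fin 3 → K)
      rw [zero_smul, zero_pow (by have := D.hd; omega), zero_mul] at h4
      exact h4) m0
  rw [eval_C] at hS
  exact mul_ne_zero ha0 hm0 hS

end Pool.Agent.H868.RC
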