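import Pool.Agent.H868.RC.Step
import Pool.Agent.H868.RC.LemT

/-!
The expansion of the Wronskian across a component of the discriminant at a point where another
component of the cubic is met.
-/

namespace Pool.Agent.H868.RC

open MvPolynomial
open Pool.Agent.Helper15K9.IC
open Pool.Agent.W695.SLP (lf Good)


variable {K : Type*} [Field K]

/-- restriction to a line, as a ring homomorphism -/
noncomputable def lnH (a v : Fin 3 → K) : R K →+* Polynomial K :=
  (aeval (fun k => Polynomial.C (a k) + Polynomial.C (v k) * Polynomial.X) :
    R K →ₐ[K] Polynomial K).toRingHom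

lemma lnH_apply (a v : Fin 3 → K) (P : R K) : lnH a v P = ln a v P := rfl

/-- the specialisation `x = a + y b`, `t = t + ε v` -/
noncomputable def Ps (a b t v : Fin 3 → K) : RT K →+* Polynomial (Polynomial K) :=
  eval₂Hom ((Polynomial.C : Polynomial K →+* _).comp (lnH a b))
    (fun k => Polynomial.C (Polynomial.C (t k)) + Polynomial.C (Polynomial.C (v k)) * Polynomial.X)

lemma Ps_map (a b t v : Fin 3 → K) (y : K) (P : RT K) :
    Polynomial.map (Polynomial.evalRingHom y) (Ps a b t v P)
      = ln t v (evx (fun k => a k + b k * y) P) := by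
  have h : (Polynomial.mapRingHom (Polynomial.evalRingHom y)).comp (Ps a b t v)
      = (lnH t v).comp (evx (fun k => a k + b k * y)) := by
    apply MvPolynomial.ringHom_ext
    · intro p
      simp only [RingHom.comp_apply, Ps, eval₂Hom_C, Polynomial.coe_mapRingHom, Polynomial.map_C,
        evx_C, Polynomial.coe_evalRingHom]
      rw [lnH_apply, ln_eval, lnH_apply, ln, aeval_C]
      rfl
    · intro k
      simp only [RingHom.comp_apply, Ps, eval₂Hom_X', Polynomial.coe_mapRingHom, evx_X,
        Polynomial.map_add, Polynomial.map_mul, Polynomial.map_C, Polynomial.map_X,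
        Polynomial.coe_evalRingHom, Polynomial.eval_C]
      rw [lnH_apply, ln, aeval_X]
  exact RingHom.congr_fun h P

lemma Ps_zero (a b t v : Fin 3 → K) (P : RT K) :
    (Ps a b t v P).coeff 0 = ln a b (evt t P) := by
  have h : (Polynomial.evalRingHom (0 : Polynomial K)).comp (Ps a b t v)
      = (lnH a b).comp (evt t) := by
    apply MvPolynomial.ringHom_ext
    · intro p
      simp only [RingHom.comp_apply, Ps, eval₂Hom_C, evt_C, Polynomial.coe_evalRingHom,
        Polynomial.eval_C]
    · intro k
      simp only [RingHom.comp_apply, Ps, eval₂Hom_X', evt_X, Polynomial.coe_evalRingHom,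
        Polynomial.eval_add, Polynomial.eval_mul, Polynomial.eval_C, Polynomial.eval_X, mul_zero,
        add_zero]
      rw [lnH_apply, ln, aeval_C]
      rfl
  rw [Polynomial.coeff_zero_eq_eval_zero]
  exact RingHom.congr_fun h P

lemma Ps_deriv (a b t v : Fin 3 → K) (P : RT K) :
    Polynomial.derivative (Ps a b t v P)
      = ∑ k, Polynomial.C (Polynomial.C (v k)) * Ps a b t v (pderiv k P) := by
  induction P using MvPolynomial.induction_on with
  | C c =>
    simp [Ps]
  | add p q hp hq =>
    rw [map_add, Polynomial.derivative_add, hp, hq, ← Finset.sum_add_distrib]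
    refine Finset.sum_congr rfl fun k _ => ?_
    rw [map_add, map_add, mul_add]
  | mul_X p j hp =>
    have eX : Ps a b t v (X j) = Polynomial.C (Polynomial.C (t j))
        + Polynomial.C (Polynomial.C (v j)) * Polynomial.X := by
      rw [Ps, eval₂Hom_X']
    rw [map_mul, Polynomial.derivative_mul, hp, eX]
    have h1 : ∀ k, Polynomial.C (Polynomial.C (v k)) * Ps a b t v (pderiv k (p * X j))
        = (Polynomial.C (Polynomial.C (v k)) * Ps a b t v (pderiv k p))
            * (Polynomial.C (Polynomial.C (t j)) + Polynomial.C (Polynomial.C (v j)) * Polynomial.X)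
          + (if k = j then Ps a b t v p * Polynomial.C (Polynomial.C (v j)) else 0) := by
      intro k
      rw [pderiv_mul, map_add, map_mul, map_mul, eX]
      split_ifs with h
      · subst h
        rw [pderiv_X_self, map_one]; ring
      · rw [pderiv_X_of_ne (Ne.symm h), map_zero]; ring
    rw [Finset.sum_congr rfl fun k _ => h1 k, Finset.sum_add_distrib, ← Finset.sum_mul,
      Finset.sum_ite_eq', if_pos (Finset.mem_univ _)]
    simp

lemma eq_of_map [Infinite K] {P Q : Polynomial (Polynomial K)}
    (h : ∀ y : K, Polynomial.map (Polynomial.evalRingHom y) P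
      = Polynomial.map (Polynomial.evalRingHom y) Q) : P = Q := by
  ext1 n
  apply Polynomial.funext
  intro y
  have h1 := congrArg (fun p => Polynomial.coeff p n) (h y)
  simpa only [Polynomial.coeff_map, Polynomial.coe_evalRingHom] using h1

end Pool.Agent.H868.RC
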