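import Pool.Agent.H868.RC.Trick

/-!
The expansion of the Wronskian across a component of the discriminant.
-/

namespace Pool.Agent.H868.RC

open MvPolynomial
open Pool.Agent.Helper15K9.IC
open Pool.Agent.W695.SLP (lf Good)

variable {K : Type*} [Field K]

lemma ln_coeff_zero (a v : Fin 3 → K) (P : R K) : (ln a v P).coeff 0 = eval a P := by
  rw [Polynomial.coeff_zero_eq_eval_zero, ln_eval]
  congr 1
  simp

lemma ln_mul (a v : Fin 3 → K) (P Q : R K) : ln a v (P * Q) = ln a v P * ln a v Q := map_mul _ _ _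

lemma ln_add (a v : Fin 3 → K) (P Q : R K) : ln a v (P + Q) = ln a v P + ln a v Q := map_add _ _ _

lemma ln_sub (a v : Fin 3 → K) (P Q : R K) : ln a v (P - Q) = ln a v P - ln a v Q := map_sub _ _ _

lemma ln_pow (a v : Fin 3 → K) (P : R K) (n : ℕ) : ln a v (P ^ n) = ln a v P ^ n := map_pow _ _ _

lemma ln_C (a v : Fin 3 → K) (s : K) : ln a v (C s) = Polynomial.C s := by
  rw [ln, aeval_C]
  rfl

theorem trick_pt [CharZero K] (D : Dt K) (S : Sz D) {x0 v1 t v : Fin 3 → K}
    {c θ' : R K} {ρ' : Fin 3 → R K} {m n : ℕ}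
    (hline : ∀ y : K, eval (fun k => x0 k + v1 k * y) D.f = 0)
    (hne : ∀ y : K, (fun k => x0 k + v1 k * y) ≠ (0 : Fin 3 → K))
    (hθ : S.θ = c ^ m * θ') (hρ : ∀ k, S.ρ k = c ^ m * ρ' k)
    (htc : eval t c = 0) (hvc : ∑ k, v k * eval t (pderiv k c) ≠ 0)
    (ht0 : eval t (lf x0) ≠ 0)
    (hA : Polynomial.X ^ n ∣ ln x0 v1 (evt t S.A)) (hB : Polynomial.X ^ n ∣ ln x0 v1 (evt t S.B))
    (hAB : ln x0 v1 (evt t S.A) ≠ 0 ∨ ln x0 v1 (evt t S.B) ≠ 0) :
    Polynomial.X ^ n ∣ Polynomial.C (eval t θ') * ln x0 v1 (lf v)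
      + Polynomial.C (∑ k, v k * eval t (ρ' k)) * ln x0 v1 (lf t) := by
  classical
  have hinf : Infinite K := inferInstance
  obtain ⟨ct, hct⟩ : Polynomial.X ∣ ln t v c := by
    rw [Polynomial.X_dvd_iff, ln_coeff_zero]; exact htc
  have hct0 : ct.coeff 0 = ∑ k, v k * eval t (pderiv k c) := by
    have h1 := ln_deriv t v c
    rw [hct, Polynomial.derivative_mul, Polynomial.derivative_X, one_mul] at h1
    have h2 := congrArg (fun p => Polynomial.coeff p 0) h1
    simp only [Polynomial.coeff_add, Polynomial.mul_coeff_zero, Polynomial.coeff_X_zero, zero_mul,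
      add_zero, Polynomial.finsetSum_coeff, Polynomial.coeff_C_zero, ln_coeff_zero] at h2
    exact h2
  set ι : Polynomial K →+* Polynomial (Polynomial K) := Polynomial.mapRingHom Polynomial.C with hι
  have hιm : ∀ (y : K) (p : Polynomial K),
      Polynomial.map (Polynomial.evalRingHom y) (ι p) = p := by
    intro y p
    rw [hι, Polynomial.coe_mapRingHom, Polynomial.map_map]
    have : (Polynomial.evalRingHom y).comp Polynomial.C = RingHom.id K := by
      ext a; simp
    rw [this, Polynomial.map_id]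
  have hι0 : ∀ p : Polynomial K, (ι p).coeff 0 = Polynomial.C (p.coeff 0) := by
    intro p
    rw [hι, Polynomial.coe_mapRingHom, Polynomial.coeff_map]
  set G : Polynomial (Polynomial K) := ι ct ^ m * ((Ps x0 v1 t v (gl K)) ^ (D.N - 1) *
    (ι (ln t v θ') * Polynomial.C (ln x0 v1 (lf v))
      + (∑ k, Polynomial.C (Polynomial.C (v k)) * ι (ln t v (ρ' k))) * Ps x0 v1 t v (gl K))) with hG
  have hW : Ps x0 v1 t v S.A * Polynomial.derivative (Ps x0 v1 t v S.B)
      - Ps x0 v1 t v S.B * Polynomial.derivative (Ps x0 v1 t v S.A) = Polynomial.X ^ m * G := by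
    apply eq_of_map
    intro y
    obtain ⟨x, hx⟩ : ∃ x : Fin 3 → K, x = fun k => x0 k + v1 k * y := ⟨_, rfl⟩
    have hxf : eval x D.f = 0 := by rw [hx]; exact hline y
    have hx0 : x ≠ 0 := by rw [hx]; exact hne y
    obtain ⟨h0, h1, h2⟩ := over_x D S hxf
    have hP : PtRel D.N x (eval x D.g) (eval x D.h) (evx x D.u) (evx x S.A) (evx x S.B) S.θ S.ρ :=
      ⟨h0, h1, h2⟩
    have hwr := hP.wr D.hN (gh_ne D hx0 hxf)
    have e1 : ∀ P : RT K, Polynomial.map (Polynomial.evalRingHom y) (Ps x0 v1 t v P)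
        = ln t v (evx x P) := by
      intro P
      rw [hx]; exact Ps_map x0 v1 t v y P
    have e2 : ln t v (lf x) = ln t v (evx x (gl K)) := by rw [evx_gl]
    rw [Polynomial.map_sub, Polynomial.map_mul, Polynomial.map_mul, ← Polynomial.derivative_map,
      ← Polynomial.derivative_map, e1, e1, ln_deriv, ln_deriv, Finset.mul_sum, Finset.mul_sum,
      ← Finset.sum_sub_distrib]
    have e3 : ∀ k, ln t v (evx x S.A) * (Polynomial.C (v k) * ln t v (pderiv k (evx x S.B)))
        - ln t v (evx x S.B) * (Polynomial.C (v k) * ln t v (pderiv k (evx x S.A)))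
        = Polynomial.X ^ m * (ct ^ m * (ln t v (lf x) ^ (D.N - 1) *
          (ln t v θ' * Polynomial.C (v k * x k)
            + Polynomial.C (v k) * ln t v (ρ' k) * ln t v (lf x)))) := by
      intro k
      have h3 := congrArg (ln t v) (hwr k)
      rw [ln_sub, ln_mul, ln_mul, ln_mul, ln_pow, ln_add, ln_mul, ln_mul, ln_C, hθ, hρ k, ln_mul,
        ln_mul, ln_pow, hct] at h3
      rw [Polynomial.C_mul]
      linear_combination (Polynomial.C (v k)) * h3
    rw [Finset.sum_congr rfl fun k _ => e3 k, hG]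
    simp only [Polynomial.map_mul, Polynomial.map_pow, Polynomial.map_add, Polynomial.map_X, hιm,
      Polynomial.map_C, e1, Polynomial.map_sum, ← e2, Polynomial.coe_evalRingHom, ln_eval]
    rw [← Finset.mul_sum, ← Finset.mul_sum, ← Finset.mul_sum, Finset.sum_add_distrib,
      ← Finset.mul_sum, ← Finset.sum_mul]
    have e4 : ∑ k, (Polynomial.C (v k * x k) : Polynomial K)
        = Polynomial.C (eval (fun k => x0 k + v1 k * y) (lf v)) := by
      rw [← hx, eval_lf, map_sum]
    rw [e4]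
    simp only [Polynomial.eval_C]
  obtain ⟨a, ha⟩ := hA
  obtain ⟨b, hb⟩ := hB
  have h1 := lemT (φ := (Polynomial.X ^ n : Polynomial K)) (a := a) (b := b)
    (pow_ne_zero _ Polynomial.X_ne_zero) (by rw [Ps_zero]; exact ha)
    (by rw [Ps_zero]; exact hb) (by
      rcases hAB with h | h
      · left; rintro rfl; exact h (by rw [ha, mul_zero])
      · right; rintro rfl; exact h (by rw [hb, mul_zero])) hW
  have hG0 : G.coeff 0 = Polynomial.C (ct.coeff 0) ^ m * (ln x0 v1 (lf t) ^ (D.N - 1) *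
      (Polynomial.C (eval t θ') * ln x0 v1 (lf v)
      + Polynomial.C (∑ k, v k * eval t (ρ' k)) * ln x0 v1 (lf t))) := by
    rw [hG]
    have hgl : (Ps x0 v1 t v (gl K)).coeff 0 = ln x0 v1 (lf t) := by rw [Ps_zero, evt_gl]
    have hpow : ∀ (P : Polynomial (Polynomial K)) (k : ℕ), (P ^ k).coeff 0 = P.coeff 0 ^ k := by
      intro P k
      rw [Polynomial.coeff_zero_eq_eval_zero, Polynomial.coeff_zero_eq_eval_zero,
        Polynomial.eval_pow]
    simp only [Polynomial.mul_coeff_zero, Polynomial.coeff_add, hpow, hι0, hgl,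
      Polynomial.coeff_C_zero, Polynomial.finsetSum_coeff, ln_coeff_zero, map_sum,
      Polynomial.C_mul]
  rw [hG0] at h1
  have hX : Prime (Polynomial.X : Polynomial K) := Polynomial.prime_X
  have h2 := hX.pow_dvd_of_dvd_mul_left n (a := Polynomial.C (ct.coeff 0) ^ m) (by
    intro h
    have h3 := hX.dvd_of_dvd_pow h
    rw [Polynomial.X_dvd_iff, Polynomial.coeff_C_zero, hct0] at h3
    exact hvc h3) h1
  refine hX.pow_dvd_of_dvd_mul_left n (a := ln x0 v1 (lf t) ^ (D.N - 1)) (by
    intro h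
    have h3 := hX.dvd_of_dvd_pow h
    rw [Polynomial.X_dvd_iff, ln_coeff_zero, ← lf_symm] at h3
    exact ht0 h3) h2

end Pool.Agent.H868.RC
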